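import Pool.Agent.MP_c6582e_nt.H83.Rng

namespace Pool.Agent.MP_c6582e_nt.H83

theorem cA7_t : allR (chkA (nat_lit 7) (nat_lit 6) g7 g11 (nat_lit 5)) 0 3 = true := by decide +kernel

theorem cB7_t : allR (chkB (nat_lit 7) g7 g11 (nat_lit 5)) 0 5 = true := by decide +kernel

theorem cA11_t : allR (chkA (nat_lit 11) (nat_lit 7) g11 g13 (nat_lit 23)) 0 5 = true := by decide +kernel

theorem cB11_t : allR (chkB (nat_lit 11) g11 g13 (nat_lit 23)) 0 23 = true := by decide +kernel

theorem cA13_t : allR (chkA (nat_lit 13) (nat_lit 3) g13 g17 (nat_lit 136)) 0 23 = true := by decide +kernel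

theorem cB13_0 : allB (chkB (nat_lit 13) g13 g17 (nat_lit 136)) 0 5 = true := by decide +kernel

theorem cB13_t : allR (chkB (nat_lit 13) g13 g17 (nat_lit 136)) 125 11 = true := by decide +kernel

theorem cA17_0 : allB (chkA (nat_lit 17) (nat_lit 14) g17 g19 (nat_lit 1016)) 0 5 = true := by decide +kernel

theorem cA17_t : allR (chkA (nat_lit 17) (nat_lit 14) g17 g19 (nat_lit 1016)) 125 11 = true := by decide +kernel

theorem cB17_0 : allB (chkB (nat_lit 17) g17 g19 (nat_lit 1016)) 0 30 = true := by decide +kernel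

theorem cB17_1 : allB (chkB (nat_lit 17) g17 g19 (nat_lit 1016)) 30 10 = true := by decide +kernel

theorem cB17_t : allR (chkB (nat_lit 17) g17 g19 (nat_lit 1016)) 1000 16 = true := by decide +kernel

theorem cA19_0 : allB (chkA (nat_lit 19) (nat_lit 8) g19 g23 (nat_lit 4173)) 0 20 = true := by decide +kernel

theorem cA19_1 : allB (chkA (nat_lit 19) (nat_lit 8) g19 g23 (nat_lit 4173)) 20 20 = true := by decide +kernel

theorem cA19_t : allR (chkA (nat_lit 19) (nat_lit 8) g19 g23 (nat_lit 4173)) 1000 16 = true := by decide +kernel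

theorem cB19_0 : allB (chkB (nat_lit 19) g19 g23 (nat_lit 4173)) 0 30 = true := by decide +kernel

theorem cB19_1 : allB (chkB (nat_lit 19) g19 g23 (nat_lit 4173)) 30 30 = true := by decide +kernel

theorem cB19_2 : allB (chkB (nat_lit 19) g19 g23 (nat_lit 4173)) 60 30 = true := by decide +kernel

theorem cB19_3 : allB (chkB (nat_lit 19) g19 g23 (nat_lit 4173)) 90 30 = true := by decide +kernel

theorem cB19_4 : allB (chkB (nat_lit 19) g19 g23 (nat_lit 4173)) 120 30 = true := by decide +kernel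

theorem cB19_5 : allB (chkB (nat_lit 19) g19 g23 (nat_lit 4173)) 150 16 = true := by decide +kernel

theorem cB19_t : allR (chkB (nat_lit 19) g19 g23 (nat_lit 4173)) 4150 23 = true := by decide +kernel

theorem cA23_0 : allB (chkA (nat_lit 23) (nat_lit 5) g23 g29 (nat_lit 18841)) 0 20 = true := by decide +kernel

theorem cA23_1 : allB (chkA (nat_lit 23) (nat_lit 5) g23 g29 (nat_lit 18841)) 20 20 = true := by decide +kernel

theorem cA23_2 : allB (chkA (nat_lit 23) (nat_lit 5) g23 g29 (nat_lit 18841)) 40 20 = true := by decide +kernel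

theorem cA23_3 : allB (chkA (nat_lit 23) (nat_lit 5) g23 g29 (nat_lit 18841)) 60 20 = true := by decide +kernel

theorem cA23_4 : allB (chkA (nat_lit 23) (nat_lit 5) g23 g29 (nat_lit 18841)) 80 20 = true := by decide +kernel

theorem cA23_5 : allB (chkA (nat_lit 23) (nat_lit 5) g23 g29 (nat_lit 18841)) 100 20 = true := by decide +kernel

theorem cA23_6 : allB (chkA (nat_lit 23) (nat_lit 5) g23 g29 (nat_lit 18841)) 120 20 = true := by decide +kernel

theorem rA7_0 : Rng (chkA (nat_lit 7) (nat_lit 6) g7 g11 (nat_lit 5)) 0 3 := by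
  have h := Rng.nil (chkA (nat_lit 7) (nat_lit 6) g7 g11 (nat_lit 5)) 0
  replace h := Rng.ext 3 h cA7_t rfl
  exact h

theorem rB7_0 : Rng (chkB (nat_lit 7) g7 g11 (nat_lit 5)) 0 5 := by
  have h := Rng.nil (chkB (nat_lit 7) g7 g11 (nat_lit 5)) 0
  replace h := Rng.ext 5 h cB7_t rfl
  exact h

theorem rA11_0 : Rng (chkA (nat_lit 11) (nat_lit 7) g11 g13 (nat_lit 23)) 0 5 := by
  have h := Rng.nil (chkA (nat_lit 11) (nat_lit 7) g11 g13 (nat_lit 23)) 0
  replace h := Rng.ext 5 h cA11_t rfl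
  exact h

theorem rB11_0 : Rng (chkB (nat_lit 11) g11 g13 (nat_lit 23)) 0 23 := by
  have h := Rng.nil (chkB (nat_lit 11) g11 g13 (nat_lit 23)) 0
  replace h := Rng.ext 23 h cB11_t rfl
  exact h

theorem rA13_0 : Rng (chkA (nat_lit 13) (nat_lit 3) g13 g17 (nat_lit 136)) 0 23 := by
  have h := Rng.nil (chkA (nat_lit 13) (nat_lit 3) g13 g17 (nat_lit 136)) 0
  replace h := Rng.ext 23 h cA13_t rfl
  exact h

theorem rB13_0 : Rng (chkB (nat_lit 13) g13 g17 (nat_lit 136)) 0 136 := by
  have h := Rng.nil (chkB (nat_lit 13) g13 g17 (nat_lit 136)) 0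
  replace h := Rng.extB 125 h cB13_0 rfl rfl
  replace h := Rng.ext 136 h cB13_t rfl
  exact h

theorem rA17_0 : Rng (chkA (nat_lit 17) (nat_lit 14) g17 g19 (nat_lit 1016)) 0 136 := by
  have h := Rng.nil (chkA (nat_lit 17) (nat_lit 14) g17 g19 (nat_lit 1016)) 0
  replace h := Rng.extB 125 h cA17_0 rfl rfl
  replace h := Rng.ext 136 h cA17_t rfl
  exact h

theorem rB17_0 : Rng (chkB (nat_lit 17) g17 g19 (nat_lit 1016)) 0 1016 := by
  have h := Rng.nil (chkB (nat_lit 17) g17 g19 (nat_lit 1016)) 0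
  replace h := Rng.extB 750 h cB17_0 rfl rfl
  replace h := Rng.extB 1000 h cB17_1 rfl rfl
  replace h := Rng.ext 1016 h cB17_t rfl
  exact h

theorem rA19_0 : Rng (chkA (nat_lit 19) (nat_lit 8) g19 g23 (nat_lit 4173)) 0 1016 := by
  have h := Rng.nil (chkA (nat_lit 19) (nat_lit 8) g19 g23 (nat_lit 4173)) 0
  replace h := Rng.extB 500 h cA19_0 rfl rfl
  replace h := Rng.extB 1000 h cA19_1 rfl rfl
  replace h := Rng.ext 1016 h cA19_t rfl
  exact h

theorem rB19_0 : Rng (chkB (nat_lit 19) g19 g23 (nat_lit 4173)) 0 4173 := by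
  have h := Rng.nil (chkB (nat_lit 19) g19 g23 (nat_lit 4173)) 0
  replace h := Rng.extB 750 h cB19_0 rfl rfl
  replace h := Rng.extB 1500 h cB19_1 rfl rfl
  replace h := Rng.extB 2250 h cB19_2 rfl rfl
  replace h := Rng.extB 3000 h cB19_3 rfl rfl
  replace h := Rng.extB 3750 h cB19_4 rfl rfl
  replace h := Rng.extB 4150 h cB19_5 rfl rfl
  replace h := Rng.ext 4173 h cB19_t rfl
  exact h

theorem rA23_0 : Rng (chkA (nat_lit 23) (nat_lit 5) g23 g29 (nat_lit 18841)) 0 3500 := by
  have h := Rng.nil (chkA (nat_lit 23) (nat_lit 5) g23 g29 (nat_lit 18841)) 0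
  replace h := Rng.extB 500 h cA23_0 rfl rfl
  replace h := Rng.extB 1000 h cA23_1 rfl rfl
  replace h := Rng.extB 1500 h cA23_2 rfl rfl
  replace h := Rng.extB 2000 h cA23_3 rfl rfl
  replace h := Rng.extB 2500 h cA23_4 rfl rfl
  replace h := Rng.extB 3000 h cA23_5 rfl rfl
  replace h := Rng.extB 3500 h cA23_6 rfl rfl
  exact h

end Pool.Agent.MP_c6582e_nt.H83
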