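import Pool.Agent.MP_c6582e_nt.H83.Rng

namespace Pool.Agent.MP_c6582e_nt.H83

theorem cA23_7 : allB (chkA (nat_lit 23) (nat_lit 5) g23 g29 (nat_lit 18841)) 140 20 = true := by decide +kernel

theorem cA23_8 : allB (chkA (nat_lit 23) (nat_lit 5) g23 g29 (nat_lit 18841)) 160 6 = true := by decide +kernel

theorem cA23_t : allR (chkA (nat_lit 23) (nat_lit 5) g23 g29 (nat_lit 18841)) 4150 23 = true := by decide +kernel

theorem cB23_0 : allB (chkB (nat_lit 23) g23 g29 (nat_lit 18841)) 0 30 = true := by decide +kernel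

theorem cB23_1 : allB (chkB (nat_lit 23) g23 g29 (nat_lit 18841)) 30 30 = true := by decide +kernel

theorem cB23_2 : allB (chkB (nat_lit 23) g23 g29 (nat_lit 18841)) 60 30 = true := by decide +kernel

theorem cB23_3 : allB (chkB (nat_lit 23) g23 g29 (nat_lit 18841)) 90 30 = true := by decide +kernel

theorem cB23_4 : allB (chkB (nat_lit 23) g23 g29 (nat_lit 18841)) 120 30 = true := by decide +kernel

theorem cB23_5 : allB (chkB (nat_lit 23) g23 g29 (nat_lit 18841)) 150 30 = true := by decide +kernel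

theorem cB23_6 : allB (chkB (nat_lit 23) g23 g29 (nat_lit 18841)) 180 30 = true := by decide +kernel

theorem cB23_7 : allB (chkB (nat_lit 23) g23 g29 (nat_lit 18841)) 210 30 = true := by decide +kernel

theorem cB23_8 : allB (chkB (nat_lit 23) g23 g29 (nat_lit 18841)) 240 30 = true := by decide +kernel

theorem cB23_9 : allB (chkB (nat_lit 23) g23 g29 (nat_lit 18841)) 270 30 = true := by decide +kernel

theorem cB23_10 : allB (chkB (nat_lit 23) g23 g29 (nat_lit 18841)) 300 30 = true := by decide +kernel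

theorem cB23_11 : allB (chkB (nat_lit 23) g23 g29 (nat_lit 18841)) 330 30 = true := by decide +kernel

theorem cB23_12 : allB (chkB (nat_lit 23) g23 g29 (nat_lit 18841)) 360 30 = true := by decide +kernel

theorem cB23_13 : allB (chkB (nat_lit 23) g23 g29 (nat_lit 18841)) 390 30 = true := by decide +kernel

theorem cB23_14 : allB (chkB (nat_lit 23) g23 g29 (nat_lit 18841)) 420 30 = true := by decide +kernel

theorem cB23_15 : allB (chkB (nat_lit 23) g23 g29 (nat_lit 18841)) 450 30 = true := by decide +kernel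

theorem cB23_16 : allB (chkB (nat_lit 23) g23 g29 (nat_lit 18841)) 480 30 = true := by decide +kernel

theorem cB23_17 : allB (chkB (nat_lit 23) g23 g29 (nat_lit 18841)) 510 30 = true := by decide +kernel

theorem cB23_18 : allB (chkB (nat_lit 23) g23 g29 (nat_lit 18841)) 540 30 = true := by decide +kernel

theorem cB23_19 : allB (chkB (nat_lit 23) g23 g29 (nat_lit 18841)) 570 30 = true := by decide +kernel

theorem cB23_20 : allB (chkB (nat_lit 23) g23 g29 (nat_lit 18841)) 600 30 = true := by decide +kernel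

theorem rA23_1 : Rng (chkA (nat_lit 23) (nat_lit 5) g23 g29 (nat_lit 18841)) 3500 4173 := by
  have h := Rng.nil (chkA (nat_lit 23) (nat_lit 5) g23 g29 (nat_lit 18841)) 3500
  replace h := Rng.extB 4000 h cA23_7 rfl rfl
  replace h := Rng.extB 4150 h cA23_8 rfl rfl
  replace h := Rng.ext 4173 h cA23_t rfl
  exact h

theorem rB23_1 : Rng (chkB (nat_lit 23) g23 g29 (nat_lit 18841)) 0 15750 := by
  have h := Rng.nil (chkB (nat_lit 23) g23 g29 (nat_lit 18841)) 0
  replace h := Rng.extB 750 h cB23_0 rfl rfl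
  replace h := Rng.extB 1500 h cB23_1 rfl rfl
  replace h := Rng.extB 2250 h cB23_2 rfl rfl
  replace h := Rng.extB 3000 h cB23_3 rfl rfl
  replace h := Rng.extB 3750 h cB23_4 rfl rfl
  replace h := Rng.extB 4500 h cB23_5 rfl rfl
  replace h := Rng.extB 5250 h cB23_6 rfl rfl
  replace h := Rng.extB 6000 h cB23_7 rfl rfl
  replace h := Rng.extB 6750 h cB23_8 rfl rfl
  replace h := Rng.extB 7500 h cB23_9 rfl rfl
  replace h := Rng.extB 8250 h cB23_10 rfl rfl
  replace h := Rng.extB 9000 h cB23_11 rfl rfl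
  replace h := Rng.extB 9750 h cB23_12 rfl rfl
  replace h := Rng.extB 10500 h cB23_13 rfl rfl
  replace h := Rng.extB 11250 h cB23_14 rfl rfl
  replace h := Rng.extB 12000 h cB23_15 rfl rfl
  replace h := Rng.extB 12750 h cB23_16 rfl rfl
  replace h := Rng.extB 13500 h cB23_17 rfl rfl
  replace h := Rng.extB 14250 h cB23_18 rfl rfl
  replace h := Rng.extB 15000 h cB23_19 rfl rfl
  replace h := Rng.extB 15750 h cB23_20 rfl rfl
  exact h

end Pool.Agent.MP_c6582e_nt.H83
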