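import Pool.Agent.MP_c6582e_nt.H83.Rng

namespace Pool.Agent.MP_c6582e_nt.H83

theorem cA31_15 : allB (chkA (nat_lit 31) (nat_lit 19) g31 g31 (nat_lit 0)) 300 20 = true := by decide +kernel

theorem cA31_16 : allB (chkA (nat_lit 31) (nat_lit 19) g31 g31 (nat_lit 0)) 320 20 = true := by decide +kernel

theorem cA31_17 : allB (chkA (nat_lit 31) (nat_lit 19) g31 g31 (nat_lit 0)) 340 20 = true := by decide +kernel

theorem cA31_18 : allB (chkA (nat_lit 31) (nat_lit 19) g31 g31 (nat_lit 0)) 360 20 = true := by decide +kernel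

theorem cA31_19 : allB (chkA (nat_lit 31) (nat_lit 19) g31 g31 (nat_lit 0)) 380 20 = true := by decide +kernel

theorem cA31_20 : allB (chkA (nat_lit 31) (nat_lit 19) g31 g31 (nat_lit 0)) 400 20 = true := by decide +kernel

theorem cA31_21 : allB (chkA (nat_lit 31) (nat_lit 19) g31 g31 (nat_lit 0)) 420 20 = true := by decide +kernel

theorem cA31_22 : allB (chkA (nat_lit 31) (nat_lit 19) g31 g31 (nat_lit 0)) 440 20 = true := by decide +kernel

theorem cA31_23 : allB (chkA (nat_lit 31) (nat_lit 19) g31 g31 (nat_lit 0)) 460 20 = true := by decide +kernel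

theorem cA31_24 : allB (chkA (nat_lit 31) (nat_lit 19) g31 g31 (nat_lit 0)) 480 20 = true := by decide +kernel

theorem cA31_25 : allB (chkA (nat_lit 31) (nat_lit 19) g31 g31 (nat_lit 0)) 500 20 = true := by decide +kernel

theorem cA31_26 : allB (chkA (nat_lit 31) (nat_lit 19) g31 g31 (nat_lit 0)) 520 20 = true := by decide +kernel

theorem cA31_27 : allB (chkA (nat_lit 31) (nat_lit 19) g31 g31 (nat_lit 0)) 540 20 = true := by decide +kernel

theorem rA31_10 : Rng (chkA (nat_lit 31) (nat_lit 19) g31 g31 (nat_lit 0)) 7500 14000 := by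
  have h := Rng.nil (chkA (nat_lit 31) (nat_lit 19) g31 g31 (nat_lit 0)) 7500
  replace h := Rng.extB 8000 h cA31_15 rfl rfl
  replace h := Rng.extB 8500 h cA31_16 rfl rfl
  replace h := Rng.extB 9000 h cA31_17 rfl rfl
  replace h := Rng.extB 9500 h cA31_18 rfl rfl
  replace h := Rng.extB 10000 h cA31_19 rfl rfl
  replace h := Rng.extB 10500 h cA31_20 rfl rfl
  replace h := Rng.extB 11000 h cA31_21 rfl rfl
  replace h := Rng.extB 11500 h cA31_22 rfl rfl
  replace h := Rng.extB 12000 h cA31_23 rfl rfl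
  replace h := Rng.extB 12500 h cA31_24 rfl rfl
  replace h := Rng.extB 13000 h cA31_25 rfl rfl
  replace h := Rng.extB 13500 h cA31_26 rfl rfl
  replace h := Rng.extB 14000 h cA31_27 rfl rfl
  exact h

end Pool.Agent.MP_c6582e_nt.H83
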