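import Pool.Agent.MP_c6582e_nt.H83.Rng

namespace Pool.Agent.MP_c6582e_nt.H83

theorem cA31_28 : allB (chkA (nat_lit 31) (nat_lit 19) g31 g31 (nat_lit 0)) 560 20 = true := by decide +kernel

theorem cA31_29 : allB (chkA (nat_lit 31) (nat_lit 19) g31 g31 (nat_lit 0)) 580 20 = true := by decide +kernel

theorem cA31_30 : allB (chkA (nat_lit 31) (nat_lit 19) g31 g31 (nat_lit 0)) 600 20 = true := by decide +kernel

theorem cA31_31 : allB (chkA (nat_lit 31) (nat_lit 19) g31 g31 (nat_lit 0)) 620 20 = true := by decide +kernel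

theorem cA31_32 : allB (chkA (nat_lit 31) (nat_lit 19) g31 g31 (nat_lit 0)) 640 20 = true := by decide +kernel

theorem cA31_33 : allB (chkA (nat_lit 31) (nat_lit 19) g31 g31 (nat_lit 0)) 660 20 = true := by decide +kernel

theorem cA31_34 : allB (chkA (nat_lit 31) (nat_lit 19) g31 g31 (nat_lit 0)) 680 20 = true := by decide +kernel

theorem cA31_35 : allB (chkA (nat_lit 31) (nat_lit 19) g31 g31 (nat_lit 0)) 700 20 = true := by decide +kernel

theorem cA31_36 : allB (chkA (nat_lit 31) (nat_lit 19) g31 g31 (nat_lit 0)) 720 20 = true := by decide +kernel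

theorem cA31_37 : allB (chkA (nat_lit 31) (nat_lit 19) g31 g31 (nat_lit 0)) 740 20 = true := by decide +kernel

theorem cA31_38 : allB (chkA (nat_lit 31) (nat_lit 19) g31 g31 (nat_lit 0)) 760 20 = true := by decide +kernel

theorem cA31_39 : allB (chkA (nat_lit 31) (nat_lit 19) g31 g31 (nat_lit 0)) 780 20 = true := by decide +kernel

theorem cA31_40 : allB (chkA (nat_lit 31) (nat_lit 19) g31 g31 (nat_lit 0)) 800 20 = true := by decide +kernel

theorem rA31_11 : Rng (chkA (nat_lit 31) (nat_lit 19) g31 g31 (nat_lit 0)) 14000 20500 := by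
  have h := Rng.nil (chkA (nat_lit 31) (nat_lit 19) g31 g31 (nat_lit 0)) 14000
  replace h := Rng.extB 14500 h cA31_28 rfl rfl
  replace h := Rng.extB 15000 h cA31_29 rfl rfl
  replace h := Rng.extB 15500 h cA31_30 rfl rfl
  replace h := Rng.extB 16000 h cA31_31 rfl rfl
  replace h := Rng.extB 16500 h cA31_32 rfl rfl
  replace h := Rng.extB 17000 h cA31_33 rfl rfl
  replace h := Rng.extB 17500 h cA31_34 rfl rfl
  replace h := Rng.extB 18000 h cA31_35 rfl rfl
  replace h := Rng.extB 18500 h cA31_36 rfl rfl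
  replace h := Rng.extB 19000 h cA31_37 rfl rfl
  replace h := Rng.extB 19500 h cA31_38 rfl rfl
  replace h := Rng.extB 20000 h cA31_39 rfl rfl
  replace h := Rng.extB 20500 h cA31_40 rfl rfl
  exact h

end Pool.Agent.MP_c6582e_nt.H83
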