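import Pool.Agent.MP_c6582e_nt.H83.Rng

namespace Pool.Agent.MP_c6582e_nt.H83

theorem cA31_41 : allB (chkA (nat_lit 31) (nat_lit 19) g31 g31 (nat_lit 0)) 820 20 = true := by decide +kernel

theorem cA31_42 : allB (chkA (nat_lit 31) (nat_lit 19) g31 g31 (nat_lit 0)) 840 20 = true := by decide +kernel

theorem cA31_43 : allB (chkA (nat_lit 31) (nat_lit 19) g31 g31 (nat_lit 0)) 860 20 = true := by decide +kernel

theorem cA31_44 : allB (chkA (nat_lit 31) (nat_lit 19) g31 g31 (nat_lit 0)) 880 20 = true := by decide +kernel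

theorem cA31_45 : allB (chkA (nat_lit 31) (nat_lit 19) g31 g31 (nat_lit 0)) 900 20 = true := by decide +kernel

theorem cA31_46 : allB (chkA (nat_lit 31) (nat_lit 19) g31 g31 (nat_lit 0)) 920 20 = true := by decide +kernel

theorem cA31_47 : allB (chkA (nat_lit 31) (nat_lit 19) g31 g31 (nat_lit 0)) 940 20 = true := by decide +kernel

theorem cA31_48 : allB (chkA (nat_lit 31) (nat_lit 19) g31 g31 (nat_lit 0)) 960 20 = true := by decide +kernel

theorem cA31_49 : allB (chkA (nat_lit 31) (nat_lit 19) g31 g31 (nat_lit 0)) 980 20 = true := by decide +kernel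

theorem cA31_50 : allB (chkA (nat_lit 31) (nat_lit 19) g31 g31 (nat_lit 0)) 1000 20 = true := by decide +kernel

theorem cA31_51 : allB (chkA (nat_lit 31) (nat_lit 19) g31 g31 (nat_lit 0)) 1020 20 = true := by decide +kernel

theorem cA31_52 : allB (chkA (nat_lit 31) (nat_lit 19) g31 g31 (nat_lit 0)) 1040 20 = true := by decide +kernel

theorem cA31_53 : allB (chkA (nat_lit 31) (nat_lit 19) g31 g31 (nat_lit 0)) 1060 20 = true := by decide +kernel

theorem rA31_12 : Rng (chkA (nat_lit 31) (nat_lit 19) g31 g31 (nat_lit 0)) 20500 27000 := by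
  have h := Rng.nil (chkA (nat_lit 31) (nat_lit 19) g31 g31 (nat_lit 0)) 20500
  replace h := Rng.extB 21000 h cA31_41 rfl rfl
  replace h := Rng.extB 21500 h cA31_42 rfl rfl
  replace h := Rng.extB 22000 h cA31_43 rfl rfl
  replace h := Rng.extB 22500 h cA31_44 rfl rfl
  replace h := Rng.extB 23000 h cA31_45 rfl rfl
  replace h := Rng.extB 23500 h cA31_46 rfl rfl
  replace h := Rng.extB 24000 h cA31_47 rfl rfl
  replace h := Rng.extB 24500 h cA31_48 rfl rfl
  replace h := Rng.extB 25000 h cA31_49 rfl rfl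
  replace h := Rng.extB 25500 h cA31_50 rfl rfl
  replace h := Rng.extB 26000 h cA31_51 rfl rfl
  replace h := Rng.extB 26500 h cA31_52 rfl rfl
  replace h := Rng.extB 27000 h cA31_53 rfl rfl
  exact h

end Pool.Agent.MP_c6582e_nt.H83
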