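import Pool.Agent.MP_c6582e_nt.H83.Rng

namespace Pool.Agent.MP_c6582e_nt.H83

theorem cA31_54 : allB (chkA (nat_lit 31) (nat_lit 19) g31 g31 (nat_lit 0)) 1080 20 = true := by decide +kernel

theorem cA31_55 : allB (chkA (nat_lit 31) (nat_lit 19) g31 g31 (nat_lit 0)) 1100 20 = true := by decide +kernel

theorem cA31_56 : allB (chkA (nat_lit 31) (nat_lit 19) g31 g31 (nat_lit 0)) 1120 20 = true := by decide +kernel

theorem cA31_57 : allB (chkA (nat_lit 31) (nat_lit 19) g31 g31 (nat_lit 0)) 1140 20 = true := by decide +kernel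

theorem cA31_58 : allB (chkA (nat_lit 31) (nat_lit 19) g31 g31 (nat_lit 0)) 1160 20 = true := by decide +kernel

theorem cA31_59 : allB (chkA (nat_lit 31) (nat_lit 19) g31 g31 (nat_lit 0)) 1180 20 = true := by decide +kernel

theorem cA31_60 : allB (chkA (nat_lit 31) (nat_lit 19) g31 g31 (nat_lit 0)) 1200 20 = true := by decide +kernel

theorem cA31_61 : allB (chkA (nat_lit 31) (nat_lit 19) g31 g31 (nat_lit 0)) 1220 20 = true := by decide +kernel

theorem cA31_62 : allB (chkA (nat_lit 31) (nat_lit 19) g31 g31 (nat_lit 0)) 1240 20 = true := by decide +kernel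

theorem cA31_63 : allB (chkA (nat_lit 31) (nat_lit 19) g31 g31 (nat_lit 0)) 1260 20 = true := by decide +kernel

theorem cA31_64 : allB (chkA (nat_lit 31) (nat_lit 19) g31 g31 (nat_lit 0)) 1280 20 = true := by decide +kernel

theorem cA31_65 : allB (chkA (nat_lit 31) (nat_lit 19) g31 g31 (nat_lit 0)) 1300 20 = true := by decide +kernel

theorem cA31_66 : allB (chkA (nat_lit 31) (nat_lit 19) g31 g31 (nat_lit 0)) 1320 20 = true := by decide +kernel

theorem rA31_13 : Rng (chkA (nat_lit 31) (nat_lit 19) g31 g31 (nat_lit 0)) 27000 33500 := by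
  have h := Rng.nil (chkA (nat_lit 31) (nat_lit 19) g31 g31 (nat_lit 0)) 27000
  replace h := Rng.extB 27500 h cA31_54 rfl rfl
  replace h := Rng.extB 28000 h cA31_55 rfl rfl
  replace h := Rng.extB 28500 h cA31_56 rfl rfl
  replace h := Rng.extB 29000 h cA31_57 rfl rfl
  replace h := Rng.extB 29500 h cA31_58 rfl rfl
  replace h := Rng.extB 30000 h cA31_59 rfl rfl
  replace h := Rng.extB 30500 h cA31_60 rfl rfl
  replace h := Rng.extB 31000 h cA31_61 rfl rfl
  replace h := Rng.extB 31500 h cA31_62 rfl rfl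
  replace h := Rng.extB 32000 h cA31_63 rfl rfl
  replace h := Rng.extB 32500 h cA31_64 rfl rfl
  replace h := Rng.extB 33000 h cA31_65 rfl rfl
  replace h := Rng.extB 33500 h cA31_66 rfl rfl
  exact h

end Pool.Agent.MP_c6582e_nt.H83
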