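import Pool.Agent.MP_c6582e_nt.H83.Rng

namespace Pool.Agent.MP_c6582e_nt.H83

theorem cA31_67 : allB (chkA (nat_lit 31) (nat_lit 19) g31 g31 (nat_lit 0)) 1340 20 = true := by decide +kernel

theorem cA31_68 : allB (chkA (nat_lit 31) (nat_lit 19) g31 g31 (nat_lit 0)) 1360 20 = true := by decide +kernel

theorem cA31_69 : allB (chkA (nat_lit 31) (nat_lit 19) g31 g31 (nat_lit 0)) 1380 20 = true := by decide +kernel

theorem cA31_70 : allB (chkA (nat_lit 31) (nat_lit 19) g31 g31 (nat_lit 0)) 1400 20 = true := by decide +kernel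

theorem cA31_71 : allB (chkA (nat_lit 31) (nat_lit 19) g31 g31 (nat_lit 0)) 1420 20 = true := by decide +kernel

theorem cA31_72 : allB (chkA (nat_lit 31) (nat_lit 19) g31 g31 (nat_lit 0)) 1440 20 = true := by decide +kernel

theorem cA31_73 : allB (chkA (nat_lit 31) (nat_lit 19) g31 g31 (nat_lit 0)) 1460 20 = true := by decide +kernel

theorem cA31_74 : allB (chkA (nat_lit 31) (nat_lit 19) g31 g31 (nat_lit 0)) 1480 20 = true := by decide +kernel

theorem cA31_75 : allB (chkA (nat_lit 31) (nat_lit 19) g31 g31 (nat_lit 0)) 1500 20 = true := by decide +kernel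

theorem cA31_76 : allB (chkA (nat_lit 31) (nat_lit 19) g31 g31 (nat_lit 0)) 1520 20 = true := by decide +kernel

theorem cA31_77 : allB (chkA (nat_lit 31) (nat_lit 19) g31 g31 (nat_lit 0)) 1540 20 = true := by decide +kernel

theorem cA31_78 : allB (chkA (nat_lit 31) (nat_lit 19) g31 g31 (nat_lit 0)) 1560 20 = true := by decide +kernel

theorem cA31_79 : allB (chkA (nat_lit 31) (nat_lit 19) g31 g31 (nat_lit 0)) 1580 20 = true := by decide +kernel

theorem rA31_14 : Rng (chkA (nat_lit 31) (nat_lit 19) g31 g31 (nat_lit 0)) 33500 40000 := by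
  have h := Rng.nil (chkA (nat_lit 31) (nat_lit 19) g31 g31 (nat_lit 0)) 33500
  replace h := Rng.extB 34000 h cA31_67 rfl rfl
  replace h := Rng.extB 34500 h cA31_68 rfl rfl
  replace h := Rng.extB 35000 h cA31_69 rfl rfl
  replace h := Rng.extB 35500 h cA31_70 rfl rfl
  replace h := Rng.extB 36000 h cA31_71 rfl rfl
  replace h := Rng.extB 36500 h cA31_72 rfl rfl
  replace h := Rng.extB 37000 h cA31_73 rfl rfl
  replace h := Rng.extB 37500 h cA31_74 rfl rfl
  replace h := Rng.extB 38000 h cA31_75 rfl rfl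
  replace h := Rng.extB 38500 h cA31_76 rfl rfl
  replace h := Rng.extB 39000 h cA31_77 rfl rfl
  replace h := Rng.extB 39500 h cA31_78 rfl rfl
  replace h := Rng.extB 40000 h cA31_79 rfl rfl
  exact h

end Pool.Agent.MP_c6582e_nt.H83
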