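import Pool.Agent.MP_c6582e_nt.H83.Rng

namespace Pool.Agent.MP_c6582e_nt.H83

theorem cA31_80 : allB (chkA (nat_lit 31) (nat_lit 19) g31 g31 (nat_lit 0)) 1600 20 = true := by decide +kernel

theorem cA31_81 : allB (chkA (nat_lit 31) (nat_lit 19) g31 g31 (nat_lit 0)) 1620 20 = true := by decide +kernel

theorem cA31_82 : allB (chkA (nat_lit 31) (nat_lit 19) g31 g31 (nat_lit 0)) 1640 20 = true := by decide +kernel

theorem cA31_83 : allB (chkA (nat_lit 31) (nat_lit 19) g31 g31 (nat_lit 0)) 1660 20 = true := by decide +kernel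

theorem cA31_84 : allB (chkA (nat_lit 31) (nat_lit 19) g31 g31 (nat_lit 0)) 1680 12 = true := by decide +kernel

theorem cA31_t : allR (chkA (nat_lit 31) (nat_lit 19) g31 g31 (nat_lit 0)) 42300 5 = true := by decide +kernel

theorem rA31_15 : Rng (chkA (nat_lit 31) (nat_lit 19) g31 g31 (nat_lit 0)) 40000 42305 := by
  have h := Rng.nil (chkA (nat_lit 31) (nat_lit 19) g31 g31 (nat_lit 0)) 40000
  replace h := Rng.extB 40500 h cA31_80 rfl rfl
  replace h := Rng.extB 41000 h cA31_81 rfl rfl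
  replace h := Rng.extB 41500 h cA31_82 rfl rfl
  replace h := Rng.extB 42000 h cA31_83 rfl rfl
  replace h := Rng.extB 42300 h cA31_84 rfl rfl
  replace h := Rng.ext 42305 h cA31_t rfl
  exact h

end Pool.Agent.MP_c6582e_nt.H83
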