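import Pool.Agent.MP_c6582e_nt.H83.Rng

namespace Pool.Agent.MP_c6582e_nt.H83

theorem cB23_21 : allB (chkB (nat_lit 23) g23 g29 (nat_lit 18841)) 630 30 = true := by decide +kernel

theorem cB23_22 : allB (chkB (nat_lit 23) g23 g29 (nat_lit 18841)) 660 30 = true := by decide +kernel

theorem cB23_23 : allB (chkB (nat_lit 23) g23 g29 (nat_lit 18841)) 690 30 = true := by decide +kernel

theorem cB23_24 : allB (chkB (nat_lit 23) g23 g29 (nat_lit 18841)) 720 30 = true := by decide +kernel

theorem cB23_25 : allB (chkB (nat_lit 23) g23 g29 (nat_lit 18841)) 750 3 = true := by decide +kernel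

theorem cB23_t : allR (chkB (nat_lit 23) g23 g29 (nat_lit 18841)) 18825 16 = true := by decide +kernel

theorem cA29_0 : allB (chkA (nat_lit 29) (nat_lit 12) g29 g31 (nat_lit 42305)) 0 20 = true := by decide +kernel

theorem cA29_1 : allB (chkA (nat_lit 29) (nat_lit 12) g29 g31 (nat_lit 42305)) 20 20 = true := by decide +kernel

theorem cA29_2 : allB (chkA (nat_lit 29) (nat_lit 12) g29 g31 (nat_lit 42305)) 40 20 = true := by decide +kernel

theorem cA29_3 : allB (chkA (nat_lit 29) (nat_lit 12) g29 g31 (nat_lit 42305)) 60 20 = true := by decide +kernel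

theorem cA29_4 : allB (chkA (nat_lit 29) (nat_lit 12) g29 g31 (nat_lit 42305)) 80 20 = true := by decide +kernel

theorem cA29_5 : allB (chkA (nat_lit 29) (nat_lit 12) g29 g31 (nat_lit 42305)) 100 20 = true := by decide +kernel

theorem cA29_6 : allB (chkA (nat_lit 29) (nat_lit 12) g29 g31 (nat_lit 42305)) 120 20 = true := by decide +kernel

theorem cA29_7 : allB (chkA (nat_lit 29) (nat_lit 12) g29 g31 (nat_lit 42305)) 140 20 = true := by decide +kernel

theorem cA29_8 : allB (chkA (nat_lit 29) (nat_lit 12) g29 g31 (nat_lit 42305)) 160 20 = true := by decide +kernel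

theorem cA29_9 : allB (chkA (nat_lit 29) (nat_lit 12) g29 g31 (nat_lit 42305)) 180 20 = true := by decide +kernel

theorem cA29_10 : allB (chkA (nat_lit 29) (nat_lit 12) g29 g31 (nat_lit 42305)) 200 20 = true := by decide +kernel

theorem rB23_2 : Rng (chkB (nat_lit 23) g23 g29 (nat_lit 18841)) 15750 18841 := by
  have h := Rng.nil (chkB (nat_lit 23) g23 g29 (nat_lit 18841)) 15750
  replace h := Rng.extB 16500 h cB23_21 rfl rfl
  replace h := Rng.extB 17250 h cB23_22 rfl rfl
  replace h := Rng.extB 18000 h cB23_23 rfl rfl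
  replace h := Rng.extB 18750 h cB23_24 rfl rfl
  replace h := Rng.extB 18825 h cB23_25 rfl rfl
  replace h := Rng.ext 18841 h cB23_t rfl
  exact h

theorem rA29_2 : Rng (chkA (nat_lit 29) (nat_lit 12) g29 g31 (nat_lit 42305)) 0 5500 := by
  have h := Rng.nil (chkA (nat_lit 29) (nat_lit 12) g29 g31 (nat_lit 42305)) 0
  replace h := Rng.extB 500 h cA29_0 rfl rfl
  replace h := Rng.extB 1000 h cA29_1 rfl rfl
  replace h := Rng.extB 1500 h cA29_2 rfl rfl
  replace h := Rng.extB 2000 h cA29_3 rfl rfl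
  replace h := Rng.extB 2500 h cA29_4 rfl rfl
  replace h := Rng.extB 3000 h cA29_5 rfl rfl
  replace h := Rng.extB 3500 h cA29_6 rfl rfl
  replace h := Rng.extB 4000 h cA29_7 rfl rfl
  replace h := Rng.extB 4500 h cA29_8 rfl rfl
  replace h := Rng.extB 5000 h cA29_9 rfl rfl
  replace h := Rng.extB 5500 h cA29_10 rfl rfl
  exact h

end Pool.Agent.MP_c6582e_nt.H83
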