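import Pool.Agent.MP_c6582e_nt.H83.Rng

namespace Pool.Agent.MP_c6582e_nt.H83

theorem cA29_11 : allB (chkA (nat_lit 29) (nat_lit 12) g29 g31 (nat_lit 42305)) 220 20 = true := by decide +kernel

theorem cA29_12 : allB (chkA (nat_lit 29) (nat_lit 12) g29 g31 (nat_lit 42305)) 240 20 = true := by decide +kernel

theorem cA29_13 : allB (chkA (nat_lit 29) (nat_lit 12) g29 g31 (nat_lit 42305)) 260 20 = true := by decide +kernel

theorem cA29_14 : allB (chkA (nat_lit 29) (nat_lit 12) g29 g31 (nat_lit 42305)) 280 20 = true := by decide +kernel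

theorem cA29_15 : allB (chkA (nat_lit 29) (nat_lit 12) g29 g31 (nat_lit 42305)) 300 20 = true := by decide +kernel

theorem cA29_16 : allB (chkA (nat_lit 29) (nat_lit 12) g29 g31 (nat_lit 42305)) 320 20 = true := by decide +kernel

theorem cA29_17 : allB (chkA (nat_lit 29) (nat_lit 12) g29 g31 (nat_lit 42305)) 340 20 = true := by decide +kernel

theorem cA29_18 : allB (chkA (nat_lit 29) (nat_lit 12) g29 g31 (nat_lit 42305)) 360 20 = true := by decide +kernel

theorem cA29_19 : allB (chkA (nat_lit 29) (nat_lit 12) g29 g31 (nat_lit 42305)) 380 20 = true := by decide +kernel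

theorem cA29_20 : allB (chkA (nat_lit 29) (nat_lit 12) g29 g31 (nat_lit 42305)) 400 20 = true := by decide +kernel

theorem cA29_21 : allB (chkA (nat_lit 29) (nat_lit 12) g29 g31 (nat_lit 42305)) 420 20 = true := by decide +kernel

theorem cA29_22 : allB (chkA (nat_lit 29) (nat_lit 12) g29 g31 (nat_lit 42305)) 440 20 = true := by decide +kernel

theorem cA29_23 : allB (chkA (nat_lit 29) (nat_lit 12) g29 g31 (nat_lit 42305)) 460 20 = true := by decide +kernel

theorem rA29_3 : Rng (chkA (nat_lit 29) (nat_lit 12) g29 g31 (nat_lit 42305)) 5500 12000 := by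
  have h := Rng.nil (chkA (nat_lit 29) (nat_lit 12) g29 g31 (nat_lit 42305)) 5500
  replace h := Rng.extB 6000 h cA29_11 rfl rfl
  replace h := Rng.extB 6500 h cA29_12 rfl rfl
  replace h := Rng.extB 7000 h cA29_13 rfl rfl
  replace h := Rng.extB 7500 h cA29_14 rfl rfl
  replace h := Rng.extB 8000 h cA29_15 rfl rfl
  replace h := Rng.extB 8500 h cA29_16 rfl rfl
  replace h := Rng.extB 9000 h cA29_17 rfl rfl
  replace h := Rng.extB 9500 h cA29_18 rfl rfl
  replace h := Rng.extB 10000 h cA29_19 rfl rfl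
  replace h := Rng.extB 10500 h cA29_20 rfl rfl
  replace h := Rng.extB 11000 h cA29_21 rfl rfl
  replace h := Rng.extB 11500 h cA29_22 rfl rfl
  replace h := Rng.extB 12000 h cA29_23 rfl rfl
  exact h

end Pool.Agent.MP_c6582e_nt.H83
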