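import Pool.Agent.MP_c6582e_nt.H83.Rng

namespace Pool.Agent.MP_c6582e_nt.H83

theorem cA29_24 : allB (chkA (nat_lit 29) (nat_lit 12) g29 g31 (nat_lit 42305)) 480 20 = true := by decide +kernel

theorem cA29_25 : allB (chkA (nat_lit 29) (nat_lit 12) g29 g31 (nat_lit 42305)) 500 20 = true := by decide +kernel

theorem cA29_26 : allB (chkA (nat_lit 29) (nat_lit 12) g29 g31 (nat_lit 42305)) 520 20 = true := by decide +kernel

theorem cA29_27 : allB (chkA (nat_lit 29) (nat_lit 12) g29 g31 (nat_lit 42305)) 540 20 = true := by decide +kernel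

theorem cA29_28 : allB (chkA (nat_lit 29) (nat_lit 12) g29 g31 (nat_lit 42305)) 560 20 = true := by decide +kernel

theorem cA29_29 : allB (chkA (nat_lit 29) (nat_lit 12) g29 g31 (nat_lit 42305)) 580 20 = true := by decide +kernel

theorem cA29_30 : allB (chkA (nat_lit 29) (nat_lit 12) g29 g31 (nat_lit 42305)) 600 20 = true := by decide +kernel

theorem cA29_31 : allB (chkA (nat_lit 29) (nat_lit 12) g29 g31 (nat_lit 42305)) 620 20 = true := by decide +kernel

theorem cA29_32 : allB (chkA (nat_lit 29) (nat_lit 12) g29 g31 (nat_lit 42305)) 640 20 = true := by decide +kernel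

theorem cA29_33 : allB (chkA (nat_lit 29) (nat_lit 12) g29 g31 (nat_lit 42305)) 660 20 = true := by decide +kernel

theorem cA29_34 : allB (chkA (nat_lit 29) (nat_lit 12) g29 g31 (nat_lit 42305)) 680 20 = true := by decide +kernel

theorem cA29_35 : allB (chkA (nat_lit 29) (nat_lit 12) g29 g31 (nat_lit 42305)) 700 20 = true := by decide +kernel

theorem cA29_36 : allB (chkA (nat_lit 29) (nat_lit 12) g29 g31 (nat_lit 42305)) 720 20 = true := by decide +kernel

theorem rA29_4 : Rng (chkA (nat_lit 29) (nat_lit 12) g29 g31 (nat_lit 42305)) 12000 18500 := by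
  have h := Rng.nil (chkA (nat_lit 29) (nat_lit 12) g29 g31 (nat_lit 42305)) 12000
  replace h := Rng.extB 12500 h cA29_24 rfl rfl
  replace h := Rng.extB 13000 h cA29_25 rfl rfl
  replace h := Rng.extB 13500 h cA29_26 rfl rfl
  replace h := Rng.extB 14000 h cA29_27 rfl rfl
  replace h := Rng.extB 14500 h cA29_28 rfl rfl
  replace h := Rng.extB 15000 h cA29_29 rfl rfl
  replace h := Rng.extB 15500 h cA29_30 rfl rfl
  replace h := Rng.extB 16000 h cA29_31 rfl rfl
  replace h := Rng.extB 16500 h cA29_32 rfl rfl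
  replace h := Rng.extB 17000 h cA29_33 rfl rfl
  replace h := Rng.extB 17500 h cA29_34 rfl rfl
  replace h := Rng.extB 18000 h cA29_35 rfl rfl
  replace h := Rng.extB 18500 h cA29_36 rfl rfl
  exact h

end Pool.Agent.MP_c6582e_nt.H83
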