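import Pool.Agent.MP_c6582e_nt.H83.Rng

namespace Pool.Agent.MP_c6582e_nt.H83

theorem cA29_37 : allB (chkA (nat_lit 29) (nat_lit 12) g29 g31 (nat_lit 42305)) 740 13 = true := by decide +kernel

theorem cA29_t : allR (chkA (nat_lit 29) (nat_lit 12) g29 g31 (nat_lit 42305)) 18825 16 = true := by decide +kernel

theorem cB29_0 : allB (chkB (nat_lit 29) g29 g31 (nat_lit 42305)) 0 30 = true := by decide +kernel

theorem cB29_1 : allB (chkB (nat_lit 29) g29 g31 (nat_lit 42305)) 30 30 = true := by decide +kernel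

theorem cB29_2 : allB (chkB (nat_lit 29) g29 g31 (nat_lit 42305)) 60 30 = true := by decide +kernel

theorem cB29_3 : allB (chkB (nat_lit 29) g29 g31 (nat_lit 42305)) 90 30 = true := by decide +kernel

theorem cB29_4 : allB (chkB (nat_lit 29) g29 g31 (nat_lit 42305)) 120 30 = true := by decide +kernel

theorem cB29_5 : allB (chkB (nat_lit 29) g29 g31 (nat_lit 42305)) 150 30 = true := by decide +kernel

theorem cB29_6 : allB (chkB (nat_lit 29) g29 g31 (nat_lit 42305)) 180 30 = true := by decide +kernel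

theorem cB29_7 : allB (chkB (nat_lit 29) g29 g31 (nat_lit 42305)) 210 30 = true := by decide +kernel

theorem cB29_8 : allB (chkB (nat_lit 29) g29 g31 (nat_lit 42305)) 240 30 = true := by decide +kernel

theorem cB29_9 : allB (chkB (nat_lit 29) g29 g31 (nat_lit 42305)) 270 30 = true := by decide +kernel

theorem cB29_10 : allB (chkB (nat_lit 29) g29 g31 (nat_lit 42305)) 300 30 = true := by decide +kernel

theorem cB29_11 : allB (chkB (nat_lit 29) g29 g31 (nat_lit 42305)) 330 30 = true := by decide +kernel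

theorem cB29_12 : allB (chkB (nat_lit 29) g29 g31 (nat_lit 42305)) 360 30 = true := by decide +kernel

theorem cB29_13 : allB (chkB (nat_lit 29) g29 g31 (nat_lit 42305)) 390 30 = true := by decide +kernel

theorem rA29_5 : Rng (chkA (nat_lit 29) (nat_lit 12) g29 g31 (nat_lit 42305)) 18500 18841 := by
  have h := Rng.nil (chkA (nat_lit 29) (nat_lit 12) g29 g31 (nat_lit 42305)) 18500
  replace h := Rng.extB 18825 h cA29_37 rfl rfl
  replace h := Rng.ext 18841 h cA29_t rfl
  exact h

theorem rB29_5 : Rng (chkB (nat_lit 29) g29 g31 (nat_lit 42305)) 0 10500 := by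
  have h := Rng.nil (chkB (nat_lit 29) g29 g31 (nat_lit 42305)) 0
  replace h := Rng.extB 750 h cB29_0 rfl rfl
  replace h := Rng.extB 1500 h cB29_1 rfl rfl
  replace h := Rng.extB 2250 h cB29_2 rfl rfl
  replace h := Rng.extB 3000 h cB29_3 rfl rfl
  replace h := Rng.extB 3750 h cB29_4 rfl rfl
  replace h := Rng.extB 4500 h cB29_5 rfl rfl
  replace h := Rng.extB 5250 h cB29_6 rfl rfl
  replace h := Rng.extB 6000 h cB29_7 rfl rfl
  replace h := Rng.extB 6750 h cB29_8 rfl rfl
  replace h := Rng.extB 7500 h cB29_9 rfl rfl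
  replace h := Rng.extB 8250 h cB29_10 rfl rfl
  replace h := Rng.extB 9000 h cB29_11 rfl rfl
  replace h := Rng.extB 9750 h cB29_12 rfl rfl
  replace h := Rng.extB 10500 h cB29_13 rfl rfl
  exact h

end Pool.Agent.MP_c6582e_nt.H83
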