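import Pool.Agent.MP_c6582e_nt.H83.Rng

namespace Pool.Agent.MP_c6582e_nt.H83

theorem cB29_14 : allB (chkB (nat_lit 29) g29 g31 (nat_lit 42305)) 420 30 = true := by decide +kernel

theorem cB29_15 : allB (chkB (nat_lit 29) g29 g31 (nat_lit 42305)) 450 30 = true := by decide +kernel

theorem cB29_16 : allB (chkB (nat_lit 29) g29 g31 (nat_lit 42305)) 480 30 = true := by decide +kernel

theorem cB29_17 : allB (chkB (nat_lit 29) g29 g31 (nat_lit 42305)) 510 30 = true := by decide +kernel

theorem cB29_18 : allB (chkB (nat_lit 29) g29 g31 (nat_lit 42305)) 540 30 = true := by decide +kernel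

theorem cB29_19 : allB (chkB (nat_lit 29) g29 g31 (nat_lit 42305)) 570 30 = true := by decide +kernel

theorem cB29_20 : allB (chkB (nat_lit 29) g29 g31 (nat_lit 42305)) 600 30 = true := by decide +kernel

theorem cB29_21 : allB (chkB (nat_lit 29) g29 g31 (nat_lit 42305)) 630 30 = true := by decide +kernel

theorem cB29_22 : allB (chkB (nat_lit 29) g29 g31 (nat_lit 42305)) 660 30 = true := by decide +kernel

theorem cB29_23 : allB (chkB (nat_lit 29) g29 g31 (nat_lit 42305)) 690 30 = true := by decide +kernel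

theorem cB29_24 : allB (chkB (nat_lit 29) g29 g31 (nat_lit 42305)) 720 30 = true := by decide +kernel

theorem cB29_25 : allB (chkB (nat_lit 29) g29 g31 (nat_lit 42305)) 750 30 = true := by decide +kernel

theorem cB29_26 : allB (chkB (nat_lit 29) g29 g31 (nat_lit 42305)) 780 30 = true := by decide +kernel

theorem cB29_27 : allB (chkB (nat_lit 29) g29 g31 (nat_lit 42305)) 810 30 = true := by decide +kernel

theorem cB29_28 : allB (chkB (nat_lit 29) g29 g31 (nat_lit 42305)) 840 30 = true := by decide +kernel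

theorem rB29_6 : Rng (chkB (nat_lit 29) g29 g31 (nat_lit 42305)) 10500 21750 := by
  have h := Rng.nil (chkB (nat_lit 29) g29 g31 (nat_lit 42305)) 10500
  replace h := Rng.extB 11250 h cB29_14 rfl rfl
  replace h := Rng.extB 12000 h cB29_15 rfl rfl
  replace h := Rng.extB 12750 h cB29_16 rfl rfl
  replace h := Rng.extB 13500 h cB29_17 rfl rfl
  replace h := Rng.extB 14250 h cB29_18 rfl rfl
  replace h := Rng.extB 15000 h cB29_19 rfl rfl
  replace h := Rng.extB 15750 h cB29_20 rfl rfl
  replace h := Rng.extB 16500 h cB29_21 rfl rfl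
  replace h := Rng.extB 17250 h cB29_22 rfl rfl
  replace h := Rng.extB 18000 h cB29_23 rfl rfl
  replace h := Rng.extB 18750 h cB29_24 rfl rfl
  replace h := Rng.extB 19500 h cB29_25 rfl rfl
  replace h := Rng.extB 20250 h cB29_26 rfl rfl
  replace h := Rng.extB 21000 h cB29_27 rfl rfl
  replace h := Rng.extB 21750 h cB29_28 rfl rfl
  exact h

end Pool.Agent.MP_c6582e_nt.H83
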