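import Pool.Agent.MP_c6582e_nt.H83.Rng

namespace Pool.Agent.MP_c6582e_nt.H83

theorem cB29_29 : allB (chkB (nat_lit 29) g29 g31 (nat_lit 42305)) 870 30 = true := by decide +kernel

theorem cB29_30 : allB (chkB (nat_lit 29) g29 g31 (nat_lit 42305)) 900 30 = true := by decide +kernel

theorem cB29_31 : allB (chkB (nat_lit 29) g29 g31 (nat_lit 42305)) 930 30 = true := by decide +kernel

theorem cB29_32 : allB (chkB (nat_lit 29) g29 g31 (nat_lit 42305)) 960 30 = true := by decide +kernel

theorem cB29_33 : allB (chkB (nat_lit 29) g29 g31 (nat_lit 42305)) 990 30 = true := by decide +kernel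

theorem cB29_34 : allB (chkB (nat_lit 29) g29 g31 (nat_lit 42305)) 1020 30 = true := by decide +kernel

theorem cB29_35 : allB (chkB (nat_lit 29) g29 g31 (nat_lit 42305)) 1050 30 = true := by decide +kernel

theorem cB29_36 : allB (chkB (nat_lit 29) g29 g31 (nat_lit 42305)) 1080 30 = true := by decide +kernel

theorem cB29_37 : allB (chkB (nat_lit 29) g29 g31 (nat_lit 42305)) 1110 30 = true := by decide +kernel

theorem cB29_38 : allB (chkB (nat_lit 29) g29 g31 (nat_lit 42305)) 1140 30 = true := by decide +kernel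

theorem cB29_39 : allB (chkB (nat_lit 29) g29 g31 (nat_lit 42305)) 1170 30 = true := by decide +kernel

theorem cB29_40 : allB (chkB (nat_lit 29) g29 g31 (nat_lit 42305)) 1200 30 = true := by decide +kernel

theorem cB29_41 : allB (chkB (nat_lit 29) g29 g31 (nat_lit 42305)) 1230 30 = true := by decide +kernel

theorem cB29_42 : allB (chkB (nat_lit 29) g29 g31 (nat_lit 42305)) 1260 30 = true := by decide +kernel

theorem cB29_43 : allB (chkB (nat_lit 29) g29 g31 (nat_lit 42305)) 1290 30 = true := by decide +kernel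

theorem rB29_7 : Rng (chkB (nat_lit 29) g29 g31 (nat_lit 42305)) 21750 33000 := by
  have h := Rng.nil (chkB (nat_lit 29) g29 g31 (nat_lit 42305)) 21750
  replace h := Rng.extB 22500 h cB29_29 rfl rfl
  replace h := Rng.extB 23250 h cB29_30 rfl rfl
  replace h := Rng.extB 24000 h cB29_31 rfl rfl
  replace h := Rng.extB 24750 h cB29_32 rfl rfl
  replace h := Rng.extB 25500 h cB29_33 rfl rfl
  replace h := Rng.extB 26250 h cB29_34 rfl rfl
  replace h := Rng.extB 27000 h cB29_35 rfl rfl
  replace h := Rng.extB 27750 h cB29_36 rfl rfl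
  replace h := Rng.extB 28500 h cB29_37 rfl rfl
  replace h := Rng.extB 29250 h cB29_38 rfl rfl
  replace h := Rng.extB 30000 h cB29_39 rfl rfl
  replace h := Rng.extB 30750 h cB29_40 rfl rfl
  replace h := Rng.extB 31500 h cB29_41 rfl rfl
  replace h := Rng.extB 32250 h cB29_42 rfl rfl
  replace h := Rng.extB 33000 h cB29_43 rfl rfl
  exact h

end Pool.Agent.MP_c6582e_nt.H83
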