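import Pool.Agent.MP_c6582e_nt.H83.Rng

namespace Pool.Agent.MP_c6582e_nt.H83

theorem cB29_44 : allB (chkB (nat_lit 29) g29 g31 (nat_lit 42305)) 1320 30 = true := by decide +kernel

theorem cB29_45 : allB (chkB (nat_lit 29) g29 g31 (nat_lit 42305)) 1350 30 = true := by decide +kernel

theorem cB29_46 : allB (chkB (nat_lit 29) g29 g31 (nat_lit 42305)) 1380 30 = true := by decide +kernel

theorem cB29_47 : allB (chkB (nat_lit 29) g29 g31 (nat_lit 42305)) 1410 30 = true := by decide +kernel

theorem cB29_48 : allB (chkB (nat_lit 29) g29 g31 (nat_lit 42305)) 1440 30 = true := by decide +kernel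

theorem cB29_49 : allB (chkB (nat_lit 29) g29 g31 (nat_lit 42305)) 1470 30 = true := by decide +kernel

theorem cB29_50 : allB (chkB (nat_lit 29) g29 g31 (nat_lit 42305)) 1500 30 = true := by decide +kernel

theorem cB29_51 : allB (chkB (nat_lit 29) g29 g31 (nat_lit 42305)) 1530 30 = true := by decide +kernel

theorem cB29_52 : allB (chkB (nat_lit 29) g29 g31 (nat_lit 42305)) 1560 30 = true := by decide +kernel

theorem cB29_53 : allB (chkB (nat_lit 29) g29 g31 (nat_lit 42305)) 1590 30 = true := by decide +kernel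

theorem cB29_54 : allB (chkB (nat_lit 29) g29 g31 (nat_lit 42305)) 1620 30 = true := by decide +kernel

theorem cB29_55 : allB (chkB (nat_lit 29) g29 g31 (nat_lit 42305)) 1650 30 = true := by decide +kernel

theorem cB29_56 : allB (chkB (nat_lit 29) g29 g31 (nat_lit 42305)) 1680 12 = true := by decide +kernel

theorem cB29_t : allR (chkB (nat_lit 29) g29 g31 (nat_lit 42305)) 42300 5 = true := by decide +kernel

theorem cA31_0 : allB (chkA (nat_lit 31) (nat_lit 19) g31 g31 (nat_lit 0)) 0 20 = true := by decide +kernel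

theorem cA31_1 : allB (chkA (nat_lit 31) (nat_lit 19) g31 g31 (nat_lit 0)) 20 20 = true := by decide +kernel

theorem rB29_8 : Rng (chkB (nat_lit 29) g29 g31 (nat_lit 42305)) 33000 42305 := by
  have h := Rng.nil (chkB (nat_lit 29) g29 g31 (nat_lit 42305)) 33000
  replace h := Rng.extB 33750 h cB29_44 rfl rfl
  replace h := Rng.extB 34500 h cB29_45 rfl rfl
  replace h := Rng.extB 35250 h cB29_46 rfl rfl
  replace h := Rng.extB 36000 h cB29_47 rfl rfl
  replace h := Rng.extB 36750 h cB29_48 rfl rfl
  replace h := Rng.extB 37500 h cB29_49 rfl rfl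
  replace h := Rng.extB 38250 h cB29_50 rfl rfl
  replace h := Rng.extB 39000 h cB29_51 rfl rfl
  replace h := Rng.extB 39750 h cB29_52 rfl rfl
  replace h := Rng.extB 40500 h cB29_53 rfl rfl
  replace h := Rng.extB 41250 h cB29_54 rfl rfl
  replace h := Rng.extB 42000 h cB29_55 rfl rfl
  replace h := Rng.extB 42300 h cB29_56 rfl rfl
  replace h := Rng.ext 42305 h cB29_t rfl
  exact h

theorem rA31_8 : Rng (chkA (nat_lit 31) (nat_lit 19) g31 g31 (nat_lit 0)) 0 1000 := by
  have h := Rng.nil (chkA (nat_lit 31) (nat_lit 19) g31 g31 (nat_lit 0)) 0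
  replace h := Rng.extB 500 h cA31_0 rfl rfl
  replace h := Rng.extB 1000 h cA31_1 rfl rfl
  exact h

end Pool.Agent.MP_c6582e_nt.H83
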