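import Pool.Agent.MP_c6582e_nt.H83.Rng

namespace Pool.Agent.MP_c6582e_nt.H83

theorem cA31_2 : allB (chkA (nat_lit 31) (nat_lit 19) g31 g31 (nat_lit 0)) 40 20 = true := by decide +kernel

theorem cA31_3 : allB (chkA (nat_lit 31) (nat_lit 19) g31 g31 (nat_lit 0)) 60 20 = true := by decide +kernel

theorem cA31_4 : allB (chkA (nat_lit 31) (nat_lit 19) g31 g31 (nat_lit 0)) 80 20 = true := by decide +kernel

theorem cA31_5 : allB (chkA (nat_lit 31) (nat_lit 19) g31 g31 (nat_lit 0)) 100 20 = true := by decide +kernel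

theorem cA31_6 : allB (chkA (nat_lit 31) (nat_lit 19) g31 g31 (nat_lit 0)) 120 20 = true := by decide +kernel

theorem cA31_7 : allB (chkA (nat_lit 31) (nat_lit 19) g31 g31 (nat_lit 0)) 140 20 = true := by decide +kernel

theorem cA31_8 : allB (chkA (nat_lit 31) (nat_lit 19) g31 g31 (nat_lit 0)) 160 20 = true := by decide +kernel

theorem cA31_9 : allB (chkA (nat_lit 31) (nat_lit 19) g31 g31 (nat_lit 0)) 180 20 = true := by decide +kernel

theorem cA31_10 : allB (chkA (nat_lit 31) (nat_lit 19) g31 g31 (nat_lit 0)) 200 20 = true := by decide +kernel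

theorem cA31_11 : allB (chkA (nat_lit 31) (nat_lit 19) g31 g31 (nat_lit 0)) 220 20 = true := by decide +kernel

theorem cA31_12 : allB (chkA (nat_lit 31) (nat_lit 19) g31 g31 (nat_lit 0)) 240 20 = true := by decide +kernel

theorem cA31_13 : allB (chkA (nat_lit 31) (nat_lit 19) g31 g31 (nat_lit 0)) 260 20 = true := by decide +kernel

theorem cA31_14 : allB (chkA (nat_lit 31) (nat_lit 19) g31 g31 (nat_lit 0)) 280 20 = true := by decide +kernel

theorem rA31_9 : Rng (chkA (nat_lit 31) (nat_lit 19) g31 g31 (nat_lit 0)) 1000 7500 := by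
  have h := Rng.nil (chkA (nat_lit 31) (nat_lit 19) g31 g31 (nat_lit 0)) 1000
  replace h := Rng.extB 1500 h cA31_2 rfl rfl
  replace h := Rng.extB 2000 h cA31_3 rfl rfl
  replace h := Rng.extB 2500 h cA31_4 rfl rfl
  replace h := Rng.extB 3000 h cA31_5 rfl rfl
  replace h := Rng.extB 3500 h cA31_6 rfl rfl
  replace h := Rng.extB 4000 h cA31_7 rfl rfl
  replace h := Rng.extB 4500 h cA31_8 rfl rfl
  replace h := Rng.extB 5000 h cA31_9 rfl rfl
  replace h := Rng.extB 5500 h cA31_10 rfl rfl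
  replace h := Rng.extB 6000 h cA31_11 rfl rfl
  replace h := Rng.extB 6500 h cA31_12 rfl rfl
  replace h := Rng.extB 7000 h cA31_13 rfl rfl
  replace h := Rng.extB 7500 h cA31_14 rfl rfl
  exact h

end Pool.Agent.MP_c6582e_nt.H83
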