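import Pool.Agent.MP_c6582e_nt.H83.Lift
import Pool.Agent.MP_c6582e_nt.H83.C0
import Pool.Agent.MP_c6582e_nt.H83.C1
import Pool.Agent.MP_c6582e_nt.H83.C2
import Pool.Agent.MP_c6582e_nt.H83.C3
import Pool.Agent.MP_c6582e_nt.H83.C4
import Pool.Agent.MP_c6582e_nt.H83.C5
import Pool.Agent.MP_c6582e_nt.H83.C6
import Pool.Agent.MP_c6582e_nt.H83.C7
import Pool.Agent.MP_c6582e_nt.H83.C8
import Pool.Agent.MP_c6582e_nt.H83.C9
import Pool.Agent.MP_c6582e_nt.H83.C10
import Pool.Agent.MP_c6582e_nt.H83.C11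
import Pool.Agent.MP_c6582e_nt.H83.C12
import Pool.Agent.MP_c6582e_nt.H83.C13
import Pool.Agent.MP_c6582e_nt.H83.C14
import Pool.Agent.MP_c6582e_nt.H83.C15

/-! The certificate rules out every orbit that avoids the small primes. -/

namespace Pool.Agent.MP_c6582e_nt.H83

theorem allA7 : ∀ v, v < 3 → chkA (nat_lit 7) (nat_lit 6) g7 g11 (nat_lit 5) v = true :=
  Rng.all ((Rng.nil _ 0).trans rA7_0)

theorem allB7 : ∀ v, v < 5 → chkB (nat_lit 7) g7 g11 (nat_lit 5) v = true :=
  Rng.all ((Rng.nil _ 0).trans rB7_0)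

theorem allA11 : ∀ v, v < 5 → chkA (nat_lit 11) (nat_lit 7) g11 g13 (nat_lit 23) v = true :=
  Rng.all ((Rng.nil _ 0).trans rA11_0)

theorem allB11 : ∀ v, v < 23 → chkB (nat_lit 11) g11 g13 (nat_lit 23) v = true :=
  Rng.all ((Rng.nil _ 0).trans rB11_0)

theorem allA13 : ∀ v, v < 23 → chkA (nat_lit 13) (nat_lit 3) g13 g17 (nat_lit 136) v = true :=
  Rng.all ((Rng.nil _ 0).trans rA13_0)

theorem allB13 : ∀ v, v < 136 → chkB (nat_lit 13) g13 g17 (nat_lit 136) v = true :=
  Rng.all ((Rng.nil _ 0).trans rB13_0)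

theorem allA17 : ∀ v, v < 136 → chkA (nat_lit 17) (nat_lit 14) g17 g19 (nat_lit 1016) v = true :=
  Rng.all ((Rng.nil _ 0).trans rA17_0)

theorem allB17 : ∀ v, v < 1016 → chkB (nat_lit 17) g17 g19 (nat_lit 1016) v = true :=
  Rng.all ((Rng.nil _ 0).trans rB17_0)

theorem allA19 : ∀ v, v < 1016 → chkA (nat_lit 19) (nat_lit 8) g19 g23 (nat_lit 4173) v = true :=
  Rng.all ((Rng.nil _ 0).trans rA19_0)

theorem allB19 : ∀ v, v < 4173 → chkB (nat_lit 19) g19 g23 (nat_lit 4173) v = true :=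
  Rng.all ((Rng.nil _ 0).trans rB19_0)

theorem allA23 : ∀ v, v < 4173 → chkA (nat_lit 23) (nat_lit 5) g23 g29 (nat_lit 18841) v = true :=
  Rng.all (((Rng.nil _ 0).trans rA23_0).trans rA23_1)

theorem allB23 : ∀ v, v < 18841 → chkB (nat_lit 23) g23 g29 (nat_lit 18841) v = true :=
  Rng.all (((Rng.nil _ 0).trans rB23_1).trans rB23_2)

theorem allA29 : ∀ v, v < 18841 → chkA (nat_lit 29) (nat_lit 12) g29 g31 (nat_lit 42305) v = true :=
  Rng.all (((((Rng.nil _ 0).trans rA29_2).trans rA29_3).trans rA29_4).trans rA29_5)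

theorem allB29 : ∀ v, v < 42305 → chkB (nat_lit 29) g29 g31 (nat_lit 42305) v = true :=
  Rng.all (((((Rng.nil _ 0).trans rB29_5).trans rB29_6).trans rB29_7).trans rB29_8)

theorem allA31 : ∀ v, v < 42305 → chkA (nat_lit 31) (nat_lit 19) g31 g31 (nat_lit 0) v = true :=
  Rng.all (((((((((Rng.nil _ 0).trans rA31_8).trans rA31_9).trans rA31_10).trans rA31_11).trans rA31_12).trans rA31_13).trans rA31_14).trans rA31_15)

theorem allB31 : ∀ v, v < 0 → chkB (nat_lit 31) g31 g31 (nat_lit 0) v = true :=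
  Rng.all (Rng.nil _ 0)

theorem core {u c : ℕ → ℕ} (hrec : ∀ n, 2 * u (n + 1) + 2 * c n = 5 * u n) (hmono : StrictMono u)
    (hu : ∀ n, ∀ l ∈ [3, 7, 11, 13, 17, 19, 23, 29, 31], u n % l ≠ 1) {y : ℕ → ℝ}
    (hy0 : ∀ n, 0 ≤ y n) (hy1 : ∀ n, y n < 1)
    (hy : ∀ n, 2 * y (n + 1) = 5 * y n - 3 + 2 * c n) : False := by
  have h : Follows g7 3 c := base hrec (fun n => hu n 3 (by simp)) hy0 hy1 hy
    (by decide +kernel) (by decide +kernel) (by decide +kernel) (by decide +kernel)
    (by decide +kernel) (by decide +kernel)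
  replace h := lift hrec hmono (by decide) (by decide) (by decide) (by decide)
    (fun n => hu n 7 (by simp)) allA7 allB7 h
  replace h := lift hrec hmono (by decide) (by decide) (by decide) (by decide)
    (fun n => hu n 11 (by simp)) allA11 allB11 h
  replace h := lift hrec hmono (by decide) (by decide) (by decide) (by decide)
    (fun n => hu n 13 (by simp)) allA13 allB13 h
  replace h := lift hrec hmono (by decide) (by decide) (by decide) (by decide)
    (fun n => hu n 17 (by simp)) allA17 allB17 h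
  replace h := lift hrec hmono (by decide) (by decide) (by decide) (by decide)
    (fun n => hu n 19 (by simp)) allA19 allB19 h
  replace h := lift hrec hmono (by decide) (by decide) (by decide) (by decide)
    (fun n => hu n 23 (by simp)) allA23 allB23 h
  replace h := lift hrec hmono (by decide) (by decide) (by decide) (by decide)
    (fun n => hu n 29 (by simp)) allA29 allB29 h
  replace h := lift hrec hmono (by decide) (by decide) (by decide) (by decide)
    (fun n => hu n 31 (by simp)) allA31 allB31 h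
  exact not_follows _ _ h

end Pool.Agent.MP_c6582e_nt.H83
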