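import Pool.Agent.MP_c6582e_nt.H83.D23_0
import Pool.Agent.MP_c6582e_nt.H83.D23_1
import Pool.Agent.MP_c6582e_nt.H83.D29_0
import Pool.Agent.MP_c6582e_nt.H83.D29_1
import Pool.Agent.MP_c6582e_nt.H83.D29_2
import Pool.Agent.MP_c6582e_nt.H83.D29_3
import Pool.Agent.MP_c6582e_nt.H83.D29_4
import Pool.Agent.MP_c6582e_nt.H83.D31_0
import Pool.Agent.MP_c6582e_nt.H83.D31_1
import Pool.Agent.MP_c6582e_nt.H83.D31_2
import Pool.Agent.MP_c6582e_nt.H83.D31_3
import Pool.Agent.MP_c6582e_nt.H83.D31_4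
import Pool.Agent.MP_c6582e_nt.H83.D31_5
import Pool.Agent.MP_c6582e_nt.H83.D31_6
import Pool.Agent.MP_c6582e_nt.H83.D31_7
import Pool.Agent.MP_c6582e_nt.H83.D31_8
import Pool.Agent.MP_c6582e_nt.H83.D31_9
import Pool.Agent.MP_c6582e_nt.H83.D31_10
import Pool.Agent.MP_c6582e_nt.H83.D0

namespace Pool.Agent.MP_c6582e_nt.H83

noncomputable def g7 : Nat → Nat := Tr.get t7_0

noncomputable def g11 : Nat → Nat := Tr.get t11_0

noncomputable def g13 : Nat → Nat := Tr.get t13_0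

noncomputable def g17 : Nat → Nat := Tr.get t17_0

noncomputable def g19 : Nat → Nat := Tr.get (Tr.node (nat_lit 512) (Tr.node (nat_lit 256) t19_0 t19_1) (Tr.node (nat_lit 768) t19_2 t19_3))

noncomputable def g23 : Nat → Nat := Tr.get (Tr.node (nat_lit 2048) (Tr.node (nat_lit 1024) (Tr.node (nat_lit 512) (Tr.node (nat_lit 256) t23_0 t23_1) (Tr.node (nat_lit 768) t23_2 t23_3)) (Tr.node (nat_lit 1536) (Tr.node (nat_lit 1280) t23_4 t23_5) (Tr.node (nat_lit 1792) t23_6 t23_7))) (Tr.node (nat_lit 3072) (Tr.node (nat_lit 2560) (Tr.node (nat_lit 2304) t23_8 t23_9) (Tr.node (nat_lit 2816) t23_10 t23_11)) (Tr.node (nat_lit 3584) (Tr.node (nat_lit 3328) t23_12 t23_13) (Tr.node (nat_lit 3840) t23_14 (Tr.node (nat_lit 4096) t23_15 t23_16)))))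

noncomputable def g29 : Nat → Nat := Tr.get (Tr.node (nat_lit 9472) (Tr.node (nat_lit 4608) (Tr.node (nat_lit 2304) (Tr.node (nat_lit 1024) (Tr.node (nat_lit 512) (Tr.node (nat_lit 256) t29_0 t29_1) (Tr.node (nat_lit 768) t29_2 t29_3)) (Tr.node (nat_lit 1536) (Tr.node (nat_lit 1280) t29_4 t29_5) (Tr.node (nat_lit 1792) t29_6 (Tr.node (nat_lit 2048) t29_7 t29_8)))) (Tr.node (nat_lit 3328) (Tr.node (nat_lit 2816) (Tr.node (nat_lit 2560) t29_9 t29_10) (Tr.node (nat_lit 3072) t29_11 t29_12)) (Tr.node (nat_lit 3840) (Tr.node (nat_lit 3584) t29_13 t29_14) (Tr.node (nat_lit 4096) t29_15 (Tr.node (nat_lit 4352) t29_16 t29_17))))) (Tr.node (nat_lit 6912) (Tr.node (nat_lit 5632) (Tr.node (nat_lit 5120) (Tr.node (nat_lit 4864) t29_18 t29_19) (Tr.node (nat_lit 5376) t29_20 t29_21)) (Tr.node (nat_lit 6144) (Tr.node (nat_lit 5888) t29_22 t29_23) (Tr.node (nat_lit 6400) t29_24 (Tr.node (nat_lit 6656) t29_25 t29_26)))) (Tr.node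 (nat_lit 8192) (Tr.node (nat_lit 7424) (Tr.node (nat_lit 7168) t29_27 t29_28) (Tr.node (nat_lit 7680) t29_29 (Tr.node (nat_lit 7936) t29_30 t29_31))) (Tr.node (nat_lit 8704) (Tr.node (nat_lit 8448) t29_32 t29_33) (Tr.node (nat_lit 8960) t29_34 (Tr.node (nat_lit 9216) t29_35 t29_36)))))) (Tr.node (nat_lit 14080) (Tr.node (nat_lit 11776) (Tr.node (nat_lit 10496) (Tr.node (nat_lit 9984) (Tr.node (nat_lit 9728) t29_37 t29_38) (Tr.node (nat_lit 10240) t29_39 t29_40)) (Tr.node (nat_lit 11008) (Tr.node (nat_lit 10752) t29_41 t29_42) (Tr.node (nat_lit 11264) t29_43 (Tr.node (nat_lit 11520) t29_44 t29_45)))) (Tr.node (nat_lit 12800) (Tr.node (nat_lit 12288) (Tr.node (nat_lit 12032) t29_46 t29_47) (Tr.node (nat_lit 12544) t29_48 t29_49)) (Tr.node (nat_lit 13312) (Tr.node (nat_lit 13056) t29_50 t29_51) (Tr.node (nat_lit 13568) t29_52 (Tr.node (nat_lit 13824) t29_53 t29_54))))) (Tr.node (nat_lit 16384) (Tr.node (nat_lit 15104)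 (Tr.node (nat_lit 14592) (Tr.node (nat_lit 14336) t29_55 t29_56) (Tr.node (nat_lit 14848) t29_57 t29_58)) (Tr.node (nat_lit 15616) (Tr.node (nat_lit 15360) t29_59 t29_60) (Tr.node (nat_lit 15872) t29_61 (Tr.node (nat_lit 16128) t29_62 t29_63)))) (Tr.node (nat_lit 17664) (Tr.node (nat_lit 16896) (Tr.node (nat_lit 16640) t29_64 t29_65) (Tr.node (nat_lit 17152) t29_66 (Tr.node (nat_lit 17408) t29_67 t29_68))) (Tr.node (nat_lit 18176) (Tr.node (nat_lit 17920) t29_69 t29_70) (Tr.node (nat_lit 18432) t29_71 (Tr.node (nat_lit 18688) t29_72 t29_73)))))))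

noncomputable def g31 : Nat → Nat := Tr.get (Tr.node (nat_lit 21248) (Tr.node (nat_lit 10496) (Tr.node (nat_lit 5120) (Tr.node (nat_lit 2560) (Tr.node (nat_lit 1280) (Tr.node (nat_lit 512) (Tr.node (nat_lit 256) t31_0 t31_1) (Tr.node (nat_lit 768) t31_2 (Tr.node (nat_lit 1024) t31_3 t31_4))) (Tr.node (nat_lit 1792) (Tr.node (nat_lit 1536) t31_5 t31_6) (Tr.node (nat_lit 2048) t31_7 (Tr.node (nat_lit 2304) t31_8 t31_9)))) (Tr.node (nat_lit 3840) (Tr.node (nat_lit 3072) (Tr.node (nat_lit 2816) t31_10 t31_11) (Tr.node (nat_lit 3328) t31_12 (Tr.node (nat_lit 3584) t31_13 t31_14))) (Tr.node (nat_lit 4352) (Tr.node (nat_lit 4096) t31_15 t31_16) (Tr.node (nat_lit 4608) t31_17 (Tr.node (nat_lit 4864) t31_18 t31_19))))) (Tr.node (nat_lit 7680) (Tr.node (nat_lit 6400) (Tr.node (nat_lit 5632) (Tr.node (nat_lit 5376) t31_20 t31_21) (Tr.node (nat_lit 5888) t31_22 (Tr.node (nat_lit 6144) t31_23 t31_24))) (Tr.node (nat_lit 6912)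 (Tr.node (nat_lit 6656) t31_25 t31_26) (Tr.node (nat_lit 7168) t31_27 (Tr.node (nat_lit 7424) t31_28 t31_29)))) (Tr.node (nat_lit 8960) (Tr.node (nat_lit 8192) (Tr.node (nat_lit 7936) t31_30 t31_31) (Tr.node (nat_lit 8448) t31_32 (Tr.node (nat_lit 8704) t31_33 t31_34))) (Tr.node (nat_lit 9728) (Tr.node (nat_lit 9216) t31_35 (Tr.node (nat_lit 9472) t31_36 t31_37)) (Tr.node (nat_lit 9984) t31_38 (Tr.node (nat_lit 10240) t31_39 t31_40)))))) (Tr.node (nat_lit 15872) (Tr.node (nat_lit 13056) (Tr.node (nat_lit 11776) (Tr.node (nat_lit 11008) (Tr.node (nat_lit 10752) t31_41 t31_42) (Tr.node (nat_lit 11264) t31_43 (Tr.node (nat_lit 11520) t31_44 t31_45))) (Tr.node (nat_lit 12288) (Tr.node (nat_lit 12032) t31_46 t31_47) (Tr.node (nat_lit 12544) t31_48 (Tr.node (nat_lit 12800) t31_49 t31_50)))) (Tr.node (nat_lit 14336) (Tr.node (nat_lit 13568) (Tr.node (nat_lit 13312) t31_51 t31_52) (Tr.node (nat_lit 13824) t31_53 (Tr.node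 (nat_lit 14080) t31_54 t31_55))) (Tr.node (nat_lit 15104) (Tr.node (nat_lit 14592) t31_56 (Tr.node (nat_lit 14848) t31_57 t31_58)) (Tr.node (nat_lit 15360) t31_59 (Tr.node (nat_lit 15616) t31_60 t31_61))))) (Tr.node (nat_lit 18432) (Tr.node (nat_lit 17152) (Tr.node (nat_lit 16384) (Tr.node (nat_lit 16128) t31_62 t31_63) (Tr.node (nat_lit 16640) t31_64 (Tr.node (nat_lit 16896) t31_65 t31_66))) (Tr.node (nat_lit 17664) (Tr.node (nat_lit 17408) t31_67 t31_68) (Tr.node (nat_lit 17920) t31_69 (Tr.node (nat_lit 18176) t31_70 t31_71)))) (Tr.node (nat_lit 19712) (Tr.node (nat_lit 18944) (Tr.node (nat_lit 18688) t31_72 t31_73) (Tr.node (nat_lit 19200) t31_74 (Tr.node (nat_lit 19456) t31_75 t31_76))) (Tr.node (nat_lit 20480) (Tr.node (nat_lit 19968) t31_77 (Tr.node (nat_lit 20224) t31_78 t31_79)) (Tr.node (nat_lit 20736) t31_80 (Tr.node (nat_lit 20992) t31_81 t31_82))))))) (Tr.node (nat_lit 31744) (Tr.node (nat_lit 26368)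 (Tr.node (nat_lit 23808) (Tr.node (nat_lit 22528) (Tr.node (nat_lit 21760) (Tr.node (nat_lit 21504) t31_83 t31_84) (Tr.node (nat_lit 22016) t31_85 (Tr.node (nat_lit 22272) t31_86 t31_87))) (Tr.node (nat_lit 23040) (Tr.node (nat_lit 22784) t31_88 t31_89) (Tr.node (nat_lit 23296) t31_90 (Tr.node (nat_lit 23552) t31_91 t31_92)))) (Tr.node (nat_lit 25088) (Tr.node (nat_lit 24320) (Tr.node (nat_lit 24064) t31_93 t31_94) (Tr.node (nat_lit 24576) t31_95 (Tr.node (nat_lit 24832) t31_96 t31_97))) (Tr.node (nat_lit 25600) (Tr.node (nat_lit 25344) t31_98 t31_99) (Tr.node (nat_lit 25856) t31_100 (Tr.node (nat_lit 26112) t31_101 t31_102))))) (Tr.node (nat_lit 28928) (Tr.node (nat_lit 27648) (Tr.node (nat_lit 26880) (Tr.node (nat_lit 26624) t31_103 t31_104) (Tr.node (nat_lit 27136) t31_105 (Tr.node (nat_lit 27392) t31_106 t31_107))) (Tr.node (nat_lit 28160) (Tr.node (nat_lit 27904) t31_108 t31_109) (Tr.node (nat_lit 28416) t31_110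 (Tr.node (nat_lit 28672) t31_111 t31_112)))) (Tr.node (nat_lit 30208) (Tr.node (nat_lit 29440) (Tr.node (nat_lit 29184) t31_113 t31_114) (Tr.node (nat_lit 29696) t31_115 (Tr.node (nat_lit 29952) t31_116 t31_117))) (Tr.node (nat_lit 30976) (Tr.node (nat_lit 30464) t31_118 (Tr.node (nat_lit 30720) t31_119 t31_120)) (Tr.node (nat_lit 31232) t31_121 (Tr.node (nat_lit 31488) t31_122 t31_123)))))) (Tr.node (nat_lit 37120) (Tr.node (nat_lit 34304) (Tr.node (nat_lit 33024) (Tr.node (nat_lit 32256) (Tr.node (nat_lit 32000) t31_124 t31_125) (Tr.node (nat_lit 32512) t31_126 (Tr.node (nat_lit 32768) t31_127 t31_128))) (Tr.node (nat_lit 33536) (Tr.node (nat_lit 33280) t31_129 t31_130) (Tr.node (nat_lit 33792) t31_131 (Tr.node (nat_lit 34048) t31_132 t31_133)))) (Tr.node (nat_lit 35584) (Tr.node (nat_lit 34816) (Tr.node (nat_lit 34560) t31_134 t31_135) (Tr.node (nat_lit 35072) t31_136 (Tr.node (nat_lit 35328) t31_137 t31_138)))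 (Tr.node (nat_lit 36352) (Tr.node (nat_lit 35840) t31_139 (Tr.node (nat_lit 36096) t31_140 t31_141)) (Tr.node (nat_lit 36608) t31_142 (Tr.node (nat_lit 36864) t31_143 t31_144))))) (Tr.node (nat_lit 39680) (Tr.node (nat_lit 38400) (Tr.node (nat_lit 37632) (Tr.node (nat_lit 37376) t31_145 t31_146) (Tr.node (nat_lit 37888) t31_147 (Tr.node (nat_lit 38144) t31_148 t31_149))) (Tr.node (nat_lit 38912) (Tr.node (nat_lit 38656) t31_150 t31_151) (Tr.node (nat_lit 39168) t31_152 (Tr.node (nat_lit 39424) t31_153 t31_154)))) (Tr.node (nat_lit 40960) (Tr.node (nat_lit 40192) (Tr.node (nat_lit 39936) t31_155 t31_156) (Tr.node (nat_lit 40448) t31_157 (Tr.node (nat_lit 40704) t31_158 t31_159))) (Tr.node (nat_lit 41728) (Tr.node (nat_lit 41216) t31_160 (Tr.node (nat_lit 41472) t31_161 t31_162)) (Tr.node (nat_lit 41984) t31_163 (Tr.node (nat_lit 42240) t31_164 t31_165))))))))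

end Pool.Agent.MP_c6582e_nt.H83
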