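import Mathlib.Data.Nat.Bitwise

/-!
A checker for certificates on two-branching word graphs lifted modulo a prime.
All loops are written with recursors and raw arithmetic so that the kernel evaluates them fast.
-/

namespace Pool.Agent.MP_c6582e_nt.H83

/-- Search trees of natural numbers. -/
inductive Tr
  | leaf (n : Nat)
  | node (k : Nat) (l r : Tr)

/-- Lookup. -/
noncomputable def Tr.get (t : Tr) : Nat → Nat :=
  Tr.rec (motive := fun _ => Nat → Nat) (fun n _ => n)
    (fun k _ _ gl gr i => Bool.rec (motive := fun _ => Nat) (gl i) (gr i) (Nat.ble k i)) t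

/-- Conjunction. -/
noncomputable def band (a b : Bool) : Bool := Bool.rec (motive := fun _ => Bool) false b a

/-- Evaluate `x`, then apply `k`. -/
noncomputable def force (x : Nat) (k : Nat → Bool) : Bool :=
  Nat.rec (motive := fun _ => Bool) false (fun n _ => k n) (Nat.succ x)

/-- Target of edge `b`. -/
def tg (r b : Nat) : Nat := Nat.land (Nat.shiftRight r (Nat.mul 16 b)) 65535
/-- Length of the word of edge `b`. -/
def ln (r b : Nat) : Nat := Nat.land (Nat.shiftRight r (Nat.add 32 (Nat.mul 12 b))) 4095
/-- Word of edge `b`, base four, first letter lowest. -/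
def wd (r b : Nat) : Nat := Nat.shiftRight r (Nat.add 177 (Nat.mul b (Nat.mul 2 (ln r 0))))
/-- Residues at which edge `b` may keep the rank. -/
def em (r b : Nat) : Nat := Nat.land (Nat.shiftRight r (Nat.add 56 (Nat.mul 32 b))) 4294967295
/-- Slope of the affine map of edge `b`. -/
def ca (r b : Nat) : Nat := Nat.land (Nat.shiftRight r (Nat.add 120 (Nat.mul 10 b))) 31
/-- Offset of the affine map of edge `b`. -/
def cc (r b : Nat) : Nat := Nat.land (Nat.shiftRight r (Nat.add 125 (Nat.mul 10 b))) 31
/-- First index of the lifted nodes. -/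
def bs (r : Nat) : Nat := Nat.land (Nat.shiftRight r 140) 65535
/-- The state of the previous level. -/
def sr (r : Nat) : Nat := Nat.land (Nat.shiftRight r 156) 2097151
/-- Packed ranks. -/
def rk0 (r : Nat) : Nat := Nat.shiftRight r (Nat.add 177 (Nat.mul 2 (Nat.add (ln r 0) (ln r 1))))
/-- One rank. -/
def rk (R y : Nat) : Nat := Nat.land (Nat.shiftRight R (Nat.mul 7 y)) 127
/-- One bit. -/
def bt (m y : Nat) : Nat := Nat.land (Nat.shiftRight m y) 1

/-- Walk along a word and collect the residues that meet `1`. -/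
noncomputable def eloop (l h : Nat) (k : Nat → Nat → Nat → Bool) (n : Nat) :
    Nat → Nat → Nat → Nat → Bool :=
  Nat.rec (motive := fun _ => Nat → Nat → Nat → Nat → Bool) (fun _ g d m => k g d m)
    (fun _ ih w g d m => ih (Nat.div w (nat_lit 4)) (Nat.mod (Nat.mul g h) l)
      (Nat.add d (Nat.mul (Nat.mod w (nat_lit 4)) (Nat.mod (Nat.mul g h) l)))
      (Nat.lor m (Nat.shiftLeft (nat_lit 1) (Nat.mod (Nat.add g d) l)))) n

/-- Position of the lowest set bit. -/
def low (s : Nat) : Nat :=
  Nat.land (Nat.shiftRight (nat_lit 28507754684909926779703069327497961803097624868629054464)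
    (Nat.mul (nat_lit 5) (Nat.mod (Nat.gcd s (nat_lit 4294967296)) (nat_lit 37)))) (nat_lit 31)

/-- Run through the set bits. -/
noncomputable def sloop (f : Nat → Nat → Bool) (n : Nat) : Nat → Nat → Bool :=
  Nat.rec (motive := fun _ => Nat → Nat → Bool) (fun _ _ => false)
    (fun _ ih s j => Bool.rec (motive := fun _ => Bool)
      (Bool.rec (motive := fun _ => Bool) false
        (ih (Nat.xor s (Nat.shiftLeft (nat_lit 1) (low s))) (Nat.succ j)) (f (low s) j))
      true (Nat.beq s (nat_lit 0))) n

/-- Check of one edge. -/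
noncomputable def chkE (l h : Nat) (G : Nat → Nat) (r b : Nat) : Bool :=
  force (ca r b) fun A => force (cc r b) fun C => force (rk0 r) fun R =>
  force (rk0 (G (tg r b))) fun R' => force (em r b) fun E =>
  eloop l h (fun g d m =>
    band (Nat.beq (Nat.mod (Nat.mul A g) l) 1)
    (band (Nat.beq (Nat.mod (Nat.add (Nat.mul A d) C) l) 0)
    (band (Nat.ble 1 (ln r b))
    (sloop (fun y _ => Nat.ble
      (Nat.succ (Nat.land (Nat.shiftRight R' (Nat.mul (nat_lit 7)
        (Nat.mod (Nat.add (Nat.mul A y) C) l))) (nat_lit 127)))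
      (Nat.add (Nat.land (Nat.shiftRight R (Nat.mul (nat_lit 7) y)) (nat_lit 127))
        (Nat.land (Nat.shiftRight E y) (nat_lit 1))))
      33 (Nat.xor m (Nat.sub (Nat.pow 2 l) 1)) 0))))
    (ln r b) (wd r b) 1 0 0

/-- Check of one node: ranks, and every branching state has a name. -/
noncomputable def chkA (l h : Nat) (G G' : Nat → Nat) (N' v : Nat) : Bool :=
  force (G v) fun r => band (chkE l h G r 0) (band (chkE l h G r 1)
    (sloop (fun y j => band (Nat.ble (Nat.succ j) N')
      (Nat.beq (sr (G' j)) (Nat.add (Nat.mul v 32) y))) 33 (Nat.land (em r 0) (em r 1)) (bs r)))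

/-- One step along a forced path. -/
noncomputable def bstep (l : Nat) (k : Nat → Nat → Nat → Nat → Bool) (r b y L w : Nat) : Bool :=
  force (ln r b) fun n => force (Nat.pow 4 n) fun p =>
  band (Nat.ble n L) (band (Nat.beq (Nat.mod w p) (Nat.mod (wd r b) p))
    (k (tg r b) (Nat.mod (Nat.add (Nat.mul (ca r b) y) (cc r b)) l) (Nat.sub L n) (Nat.div w p)))

/-- A forced path. -/
noncomputable def bloop (l : Nat) (G : Nat → Nat) (s : Nat) (n : Nat) :
    Nat → Nat → Nat → Nat → Bool :=
  Nat.rec (motive := fun _ => Nat → Nat → Nat → Nat → Bool) (fun _ _ _ _ => false)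
    (fun _ ih v y L w => Bool.rec (motive := fun _ => Bool)
      (force v fun v => force (G v) fun r => force y fun y => force (bt (em r 1) y) fun b =>
        band (Nat.ble (Nat.add (bt (em r 0) y) b) 1) (bstep l ih r b y L w))
      (Nat.beq s (Nat.add (Nat.mul v 32) y)) (Nat.beq L 0)) n

/-- Check of one lifted edge. -/
noncomputable def chkF (l : Nat) (G G' : Nat → Nat) (N' r' r y b : Nat) : Bool :=
  force (tg r' b) fun t => band (Nat.ble (Nat.succ t) N')
    (bstep l (bloop l G (sr (G' t)) 64) r b y (ln r' b) (wd r' b))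

/-- Check of one lifted node. -/
noncomputable def chkB (l : Nat) (G G' : Nat → Nat) (N' j : Nat) : Bool :=
  force (G' j) fun r' => force (G (Nat.div (sr r') 32)) fun r => force (Nat.mod (sr r') 32) fun y =>
    band (chkF l G G' N' r' r y 0) (chkF l G G' N' r' r y 1)

/-- `f` holds on `[a, a + n)`. -/
noncomputable def allR (f : Nat → Bool) (a n : Nat) : Bool :=
  Nat.rec (motive := fun _ => Bool) true
    (fun k ih => Bool.rec (motive := fun _ => Bool) false ih (force (Nat.add a k) f)) n

end Pool.Agent.MP_c6582e_nt.H83
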