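import Pool.Agent.MP_c6582e_nt.H83.Sound

/-! The lifting step and the base graph. -/

namespace Pool.Agent.MP_c6582e_nt.H83

/-- From some time on, the word `c` spells an infinite path of the graph `G` on `N` nodes. -/
def Follows (G : ℕ → ℕ) (N : ℕ) (c : ℕ → ℕ) : Prop :=
  ∃ P : ℕ → ℕ → Prop, (∃ T v, P T v) ∧ ∀ T v, P T v → v < N ∧ ∃ b, b ≤ 1 ∧
    Match c T (ln (G v) b) (wd (G v) b) ∧ P (T + ln (G v) b) (tg (G v) b)

theorem diff_step {u c : ℕ → ℕ} (hrec : ∀ n, 2 * u (n + 1) + 2 * c n = 5 * u n) {T T' w : ℕ}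
    (n : ℕ) (h : Match c T n w) (h' : Match c T' n w) :
    2 ^ n * ((u (T' + n) : ℤ) - u (T + n)) = 5 ^ n * ((u T' : ℤ) - u T) := by
  induction n with
  | zero => simp
  | succ n ih =>
    have e := ih (fun i hi => h i (by omega)) (fun i hi => h' i (by omega))
    have a1 := hrec (T + n)
    have a2 := hrec (T' + n)
    rw [h n (by omega)] at a1
    rw [h' n (by omega)] at a2
    have b1 : (2 : ℤ) * u (T + (n + 1)) + 2 * ((w / 4 ^ n % 4 : ℕ) : ℤ) = 5 * u (T + n) := by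
      exact_mod_cast a1
    have b2 : (2 : ℤ) * u (T' + (n + 1)) + 2 * ((w / 4 ^ n % 4 : ℕ) : ℤ) = 5 * u (T' + n) := by
      exact_mod_cast a2
    rw [pow_succ, pow_succ]
    linear_combination 5 * e + 2 ^ n * b2 - 2 ^ n * b1

/-- A closed set without branching is impossible. -/
theorem no_det {l N : ℕ} {G u c : ℕ → ℕ} (hrec : ∀ n, 2 * u (n + 1) + 2 * c n = 5 * u n)
    (hmono : StrictMono u) (hl : 0 < l) {P : ℕ → ℕ → Prop} (hP : Closed l G u c P)
    (hN : ∀ T v, P T v → v < N) (hne : ∃ T v, P T v)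
    (hdet : ∀ T v, P T v → ¬ (bt (em (G v) 0) (u T % l) = 1 ∧ bt (em (G v) 1) (u T % l) = 1)) :
    False := by
  have hdiv : ∀ k T T' v, P T v → P T' v → u T % l = u T' % l →
      (2 : ℤ) ^ k ∣ (u T' : ℤ) - u T := by
    intro k
    induction k with
    | zero => intros; simp
    | succ k ih =>
      intro T T' v h1 h2 h3
      obtain ⟨b, hb, m1, m2, m3, m4, m5⟩ := hP T v h1
      obtain ⟨b', hb', n1, n2, n3, -, n5⟩ := hP T' v h2
      have e : b' = b := by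
        have := hdet T v h1
        rw [← h3] at n3
        interval_cases b <;> interval_cases b' <;> simp_all
      subst e
      have a1 := ih _ _ _ m2 n2 (by rw [m5, n5, h3])
      have a2 := diff_step hrec _ m1 n1
      obtain ⟨n, hn⟩ := Nat.exists_eq_add_of_le m4
      rw [hn] at a1 a2
      have a3 : (2 : ℤ) ^ (k + 1) ∣ 5 ^ (1 + n) * ((u T' : ℤ) - u T) := by
        rw [← a2, pow_add (2 : ℤ) 1 n, pow_one, pow_succ', mul_assoc]
        exact mul_dvd_mul_left _ (a1.mul_left _)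
      have a4 : IsCoprime ((2 : ℤ) ^ (k + 1)) (5 ^ (1 + n)) :=
        IsCoprime.pow (by norm_num [Int.isCoprime_iff_gcd_eq_one])
      exact a4.dvd_of_dvd_mul_left a3
  have hinf : {T | ∃ v, P T v}.Infinite := by
    refine Set.infinite_of_forall_exists_gt fun k => ?_
    induction k with
    | zero =>
      obtain ⟨T, v, h⟩ := hne
      obtain ⟨b, -, -, m2, -, m4, -⟩ := hP T v h
      exact ⟨_, ⟨_, m2⟩, by omega⟩
    | succ k ih =>
      obtain ⟨T, ⟨v, h⟩, hT⟩ := ih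
      obtain ⟨b, -, -, m2, -, m4, -⟩ := hP T v h
      exact ⟨_, ⟨_, m2⟩, by omega⟩
  classical
  let f : ℕ → ℕ × ℕ := fun T => (if h : ∃ v, P T v then h.choose else 0, u T % l)
  have hf : ∀ T, (∃ v, P T v) → P T (f T).1 := fun T h => by
    simp only [f, dif_pos h]
    exact h.choose_spec
  obtain ⟨T, hT, T', hT', hlt, he⟩ := hinf.exists_lt_map_eq_of_mapsTo (f := f)
    (t := Set.Iio N ×ˢ Set.Iio l) (fun T h => ⟨hN _ _ (hf T h), Nat.mod_lt _ hl⟩)
    ((Set.finite_Iio N).prod (Set.finite_Iio l))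
  have h1 := hf T hT
  have h2 := hf T' hT'
  rw [← he] at h2
  have h3 : u T % l = u T' % l := congrArg Prod.snd he
  have h4 : u T < u T' := hmono hlt
  have h5 := Int.le_of_dvd (by omega) (hdiv (u T') T T' _ h1 h2 h3)
  have h6 : u T' < 2 ^ u T' := Nat.lt_two_pow_self
  have h7 : (u T' : ℤ) < 2 ^ u T' := by exact_mod_cast h6
  omega

theorem lift {u c : ℕ → ℕ} (hrec : ∀ n, 2 * u (n + 1) + 2 * c n = 5 * u n) (hmono : StrictMono u)
    {l h : ℕ} (hl : 1 < l) (hl' : l ≤ 32) (hh : 5 * h % l = 2 % l) (hU : Nat.Coprime h l)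
    (hu : ∀ n, u n % l ≠ 1) {G G' : ℕ → ℕ} {N N' : ℕ}
    (hA : ∀ v, v < N → chkA l h G G' N' v = true) (hB : ∀ j, j < N' → chkB l G G' N' j = true)
    (hF : Follows G N c) : Follows G' N' c := by
  classical
  obtain ⟨P, hne, hP⟩ := hF
  have hh' : (5 : ZMod l) * h = 2 := by
    have := (ZMod.natCast_eq_natCast_iff' _ _ _).2 hh
    simpa using this
  have hU' : IsUnit (h : ZMod l) := (ZMod.isUnit_iff_coprime h l).2 hU
  have hex : ∃ ρ, ∃ T v, P T v ∧ rk (rk0 (G v)) (u T % l) = ρ := by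
    obtain ⟨T, v, h⟩ := hne
    exact ⟨_, T, v, h, rfl⟩
  let Q : ℕ → ℕ → Prop := fun T v => P T v ∧ rk (rk0 (G v)) (u T % l) = Nat.find hex
  have hQne : ∃ T v, Q T v := Nat.find_spec hex
  have hQ : Closed l G u c Q := by
    rintro T v ⟨h1, h2⟩
    obtain ⟨hv, b, hb, m1, m2⟩ := hP T v h1
    obtain ⟨e1, e2, e3⟩ := chkE_sound hrec hl hh' hU' hu ((chkA_sound (hA v hv)).1 b hb) m1
    have e4 := Nat.find_min' hex ⟨_, _, m2, rfl⟩
    have e5 := bt_le (em (G v) b) (u T % l)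
    exact ⟨b, hb, m1, ⟨m2, by omega⟩, by omega, e1, e2⟩
  refine ⟨fun T j => j < N' ∧ ∃ v, Q T v ∧ sr (G' j) = v * 32 + u T % l, ?_, ?_⟩
  · by_contra hn
    refine no_det hrec hmono (by omega) hQ (fun T v h => (hP T v h.1).1) hQne ?_
    rintro T v h ⟨a1, a2⟩
    obtain ⟨j, hj, hs⟩ := (chkA_sound (hA v (hP T v h.1).1)).2 _ a1 a2
    exact hn ⟨T, j, hj, v, h, hs⟩
  · rintro T j ⟨hj, v, h, hs⟩
    obtain ⟨b, hb, m1, m2, m3⟩ := chkB_sound hQ (by omega) hl' (hB j hj) h hs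
    exact ⟨hj, b, hb, m1, m2, m3⟩

theorem not_follows (G c : ℕ → ℕ) : ¬ Follows G 0 c := by
  rintro ⟨P, ⟨T, v, h⟩, hP⟩
  exact absurd (hP T v h).1 (by omega)

/-- The base graph, from the fractional parts and the prime `3`. -/
theorem base {u c : ℕ → ℕ} (hrec : ∀ n, 2 * u (n + 1) + 2 * c n = 5 * u n)
    (hu : ∀ n, u n % 3 ≠ 1) {y : ℕ → ℝ} (hy0 : ∀ n, 0 ≤ y n) (hy1 : ∀ n, y n < 1)
    (hy : ∀ n, 2 * y (n + 1) = 5 * y n - 3 + 2 * c n) {G : ℕ → ℕ}
    (g00 : ln (G 0) 0 = 1 ∧ wd (G 0) 0 % 4 = 0 ∧ tg (G 0) 0 = 0)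
    (g01 : ln (G 0) 1 = 1 ∧ wd (G 0) 1 % 4 = 1 ∧ tg (G 0) 1 = 2)
    (g10 : ln (G 1) 0 = 1 ∧ wd (G 1) 0 % 4 = 0 ∧ tg (G 1) 0 = 0)
    (g11 : ln (G 1) 1 = 3 ∧ wd (G 1) 1 % 64 = 1 ∧ tg (G 1) 1 = 2)
    (g20 : ln (G 2) 0 = 1 ∧ wd (G 2) 0 % 4 = 0 ∧ tg (G 2) 0 = 2)
    (g21 : ln (G 2) 1 = 1 ∧ wd (G 2) 1 % 4 = 2 ∧ tg (G 2) 1 = 1) : Follows G 3 c := by
  have hc : ∀ n, c n ≤ 2 := fun n => by
    have h1 : (c n : ℝ) < 3 := by linarith [hy n, hy0 n, hy1 (n + 1)]
    have h2 : c n < 3 := by exact_mod_cast h1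
    omega
  have hm : ∀ n, (u (n + 1) + c n) % 3 = u n % 3 := fun n => by
    have := hrec n
    clear g00 g01 g10 g11 g20 g21
    omega
  have m1 : ∀ T w, c T = w % 4 → Match c T 1 w := fun T w h i hi => by
    have : i = 0 := by omega
    subst this
    simpa using h
  refine ⟨fun T v => (v = 0 ∧ u T % 3 = 0) ∨ (v = 1 ∧ u T % 3 = 0 ∧ 1 / 2 ≤ y T) ∨
    (v = 2 ∧ u T % 3 = 2), ?_, ?_⟩
  · have := hu 0
    rcases (by omega : u 0 % 3 = 0 ∨ u 0 % 3 = 2) with h | h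
    · exact ⟨0, 0, Or.inl ⟨rfl, h⟩⟩
    · exact ⟨0, 2, Or.inr (Or.inr ⟨rfl, h⟩)⟩
  · intro T v h
    have r0 := hm T
    have u1 := hu (T + 1)
    have c0 := hc T
    rcases h with ⟨rfl, h⟩ | ⟨rfl, h, h'⟩ | ⟨rfl, h⟩
    · refine ⟨by omega, ?_⟩
      rcases (by omega : c T = 0 ∨ c T = 1) with e | e
      · refine ⟨0, by omega, ?_⟩
        rw [g00.1, g00.2.2]
        exact ⟨m1 _ _ (by omega), Or.inl ⟨rfl, by omega⟩⟩
      · refine ⟨1, by omega, ?_⟩
        rw [g01.1, g01.2.2]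
        exact ⟨m1 _ _ (by omega), Or.inr (Or.inr ⟨rfl, by omega⟩)⟩
    · refine ⟨by omega, ?_⟩
      rcases (by omega : c T = 0 ∨ c T = 1) with e | e
      · refine ⟨0, by omega, ?_⟩
        rw [g10.1, g10.2.2]
        exact ⟨m1 _ _ (by omega), Or.inl ⟨rfl, by omega⟩⟩
      · refine ⟨1, by omega, ?_⟩
        rw [g11.1, g11.2.2]
        have y0 := hy T
        have y1 := hy (T + 1)
        have y2 := hy (T + 1 + 1)
        rw [e] at y0
        have e1 : c (T + 1) = 0 := by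
          have h1 : (c (T + 1) : ℝ) < 1 := by
            push_cast at y0
            linarith [hy1 (T + 1 + 1)]
          have h2 : c (T + 1) < 1 := by exact_mod_cast h1
          omega
        rw [e1] at y1
        have e2 : c (T + 1 + 1) < 2 := by
          have h1 : (c (T + 1 + 1) : ℝ) < 2 := by
            push_cast at y0 y1
            linarith [hy1 (T + 1 + 1 + 1)]
          exact_mod_cast h1
        have r1 := hm (T + 1)
        have r2 := hm (T + 1 + 1)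
        have u3 := hu (T + 1 + 1 + 1)
        have e3 : c (T + 1 + 1) = 0 ∧ u (T + 1 + 1 + 1) % 3 = 2 := by
          clear g00 g01 g10 g11 g20 g21
          omega
        refine ⟨fun i hi => ?_, Or.inr (Or.inr ⟨rfl, ?_⟩)⟩
        · have := g11.2.1
          have e4 := e3.1
          clear g00 g01 g10 g11 g20 g21 r0 r1 r2 u3 u1 e3 h
          interval_cases i
          · simp only [add_zero, pow_zero, Nat.div_one]
            omega
          · simp only [pow_one]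
            omega
          · show c (T + 1 + 1) = wd (G 1) 1 / 16 % 4
            omega
        · exact e3.2
    · refine ⟨by omega, ?_⟩
      rcases (by omega : c T = 0 ∨ c T = 2) with e | e
      · refine ⟨0, by omega, ?_⟩
        rw [g20.1, g20.2.2]
        exact ⟨m1 _ _ (by omega), Or.inr (Or.inr ⟨rfl, by omega⟩)⟩
      · refine ⟨1, by omega, ?_⟩
        rw [g21.1, g21.2.2]
        refine ⟨m1 _ _ (by omega), Or.inr (Or.inl ⟨rfl, by omega, ?_⟩)⟩
        have y0 := hy T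
        rw [e] at y0
        push_cast at y0
        linarith [hy0 T]

end Pool.Agent.MP_c6582e_nt.H83
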