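import Pool.Agent.MP_c6582e_nt.H83.Data

/-! Ranges of checked indices. -/

namespace Pool.Agent.MP_c6582e_nt.H83

/-- `f` holds on `[a, b)`. -/
def Rng (f : Nat → Bool) (a b : Nat) : Prop := ∀ v, a ≤ v → v < b → f v = true

theorem rng_allR (f : Nat → Bool) (a n : Nat) (h : allR f a n = true) : Rng f a (a + n) := by
  induction n with
  | zero => intro v h1 h2; omega
  | succ n ih =>
    intro v h1 h2
    have h' : band (f (a + n)) (allR f a n) = true := h
    cases e : f (a + n)
    · rw [e] at h'
      exact absurd h' (by simp [band])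
    · rw [e] at h'
      rcases Nat.lt_or_ge v (a + n) with h3 | h3
      · exact ih h' v h1 h3
      · have : v = a + n := by omega
        rw [this]
        exact e

theorem Rng.trans {f : Nat → Bool} {a b c : Nat} (h1 : Rng f a b) (h2 : Rng f b c) : Rng f a c :=
  fun v ha hc => (Nat.lt_or_ge v b).elim (h1 v ha) fun h => h2 v h hc

theorem Rng.ext {f : Nat → Bool} {a b n : Nat} (c : Nat) (h1 : Rng f a b) (h2 : allR f b n = true)
    (hc : c = b + n) : Rng f a c :=
  hc ▸ h1.trans (rng_allR f b n h2)

/-- `f` holds on `[25 a, 25 (a + n))`. -/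
noncomputable def allB (f : Nat → Bool) (a n : Nat) : Bool :=
  allR (fun i => allR f (Nat.mul 25 i) 25) a n

theorem Rng.extB {f : Nat → Bool} {a b i n : Nat} (c : Nat) (h1 : Rng f a b)
    (h2 : allB f i n = true) (hb : b = 25 * i) (hc : c = 25 * (i + n)) : Rng f a c := by
  refine h1.trans fun v h3 h4 => ?_
  have h5 := rng_allR _ i n h2 (v / 25) (by omega) (by omega)
  refine rng_allR f _ 25 h5 v ?_ ?_
  · show 25 * (v / 25) ≤ v
    omega
  · show v < 25 * (v / 25) + 25
    omega

theorem Rng.nil (f : Nat → Bool) (a : Nat) : Rng f a a := fun v h1 h2 => by omega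

theorem Rng.all {f : Nat → Bool} {b : Nat} (h : Rng f 0 b) : ∀ v, v < b → f v = true :=
  fun v hv => h v (Nat.zero_le v) hv

end Pool.Agent.MP_c6582e_nt.H83
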