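import Mathlib
import Pool.Agent.MP_c6582e_nt.H83.Defs

/-! Soundness of the loops of the checker. -/

namespace Pool.Agent.MP_c6582e_nt.H83

theorem band_iff (a b : Bool) : band a b = true ↔ a = true ∧ b = true := by
  cases a <;> simp [band]

theorem force_eq (x : ℕ) (k : ℕ → Bool) : force x k = k x := rfl

theorem sloop_sound (f : ℕ → ℕ → Bool) (n : ℕ) : ∀ s j, sloop f n s j = true →
    ∀ y, s.testBit y = true → ∃ i, f y i = true := by
  induction n with
  | zero => intro s j h; exact absurd h (by simp [sloop])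
  | succ n ih =>
    intro s j h y hy
    have h' : (Bool.rec (motive := fun _ => Bool)
      (band (f (low s) j) (sloop f n (s ^^^ (1 <<< low s)) (j + 1))) true (Nat.beq s 0)) = true := h
    cases hs : Nat.beq s 0
    · rw [hs] at h'
      have h2 := (band_iff _ _).1 h'
      by_cases e : low s = y
      · exact ⟨j, e ▸ h2.1⟩
      · refine ih _ _ h2.2 y ?_
        rw [Nat.testBit_xor, hy, Nat.one_shiftLeft, Nat.testBit_two_pow]
        simp [e]
    · rw [Nat.eq_of_beq_eq_true hs] at hy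
      simp at hy

/-- The letters `c T, ..., c (T + n - 1)` are the first `n` base four digits of `w`. -/
def Match (c : ℕ → ℕ) (T n w : ℕ) : Prop := ∀ i, i < n → c (T + i) = w / 4 ^ i % 4

theorem Match.head {c : ℕ → ℕ} {T n w : ℕ} (h : Match c T (n + 1) w) : c T = w % 4 := by
  simpa using h 0 (by omega)

theorem Match.tail {c : ℕ → ℕ} {T n w : ℕ} (h : Match c T (n + 1) w) :
    Match c (T + 1) n (w / 4) := by
  intro i hi
  have := h (i + 1) (by omega)
  rw [Nat.div_div_eq_div_mul, ← pow_succ', add_assoc, add_comm 1 i, this]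

theorem dig_mod (w : ℕ) {i n : ℕ} (h : i < n) : w % 4 ^ n / 4 ^ i % 4 = w / 4 ^ i % 4 := by
  obtain ⟨k, rfl⟩ := Nat.exists_eq_add_of_lt h
  rw [add_assoc, pow_add, Nat.mod_mul_right_div_self, pow_succ]
  exact Nat.mod_mod_of_dvd _ (Dvd.intro_left _ rfl)

theorem Match.append {c : ℕ → ℕ} {T n L w w' : ℕ} (h1 : Match c T n w) (hn : n ≤ L)
    (he : w' % 4 ^ n = w % 4 ^ n) (h2 : Match c (T + n) (L - n) (w' / 4 ^ n)) :
    Match c T L w' := by
  intro i hi
  rcases Nat.lt_or_ge i n with h | h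
  · rw [h1 i h, ← dig_mod w h, ← he, dig_mod w' h]
  · obtain ⟨k, rfl⟩ := Nat.exists_eq_add_of_le h
    rw [← add_assoc, h2 k (by omega), Nat.div_div_eq_div_mul, pow_add]

theorem eloop_sound {u c : ℕ → ℕ} (hrec : ∀ n, 2 * u (n + 1) + 2 * c n = 5 * u n) {l h : ℕ}
    (hl : 1 < l) (hh : (5 : ZMod l) * h = 2) (hU : IsUnit (h : ZMod l)) (hu : ∀ n, u n % l ≠ 1)
    (k : ℕ → ℕ → ℕ → Bool) (y n : ℕ) : ∀ T w g d m : ℕ, Match c T n w →
    (g : ZMod l) * u T + d = y → IsUnit (g : ZMod l) → m.testBit y = false →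
    eloop l h k n w g d m = true →
    ∃ g' d' m' : ℕ, k g' d' m' = true ∧ (g' : ZMod l) * u (T + n) + d' = y ∧
      m'.testBit y = false := by
  induction n with
  | zero => intro T w g d m _ h1 _ h3 h4; exact ⟨g, d, m, h4, h1, h3⟩
  | succ n ih =>
    intro T w g d m hM h1 h2 h3 h4
    have h5 : eloop l h k n (w / 4) (g * h % l) (d + w % 4 * (g * h % l))
      (m ||| (1 <<< ((g + d) % l))) = true := h4
    obtain ⟨e, he⟩ : ∃ e, u T = 2 * e := ⟨u T / 2, by have := hrec T; omega⟩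
    have he' : u (T + 1) + w % 4 = 5 * e := by have := hrec T; have := hM.head; omega
    have c1 : (u T : ZMod l) = 2 * e := by rw [he]; push_cast; rfl
    have c2 : (u (T + 1) : ZMod l) + (w % 4 : ℕ) = 5 * e := by
      rw [← Nat.cast_add, he']; push_cast; rfl
    have := ih (T + 1) _ _ _ _ hM.tail ?_ ?_ ?_ h5
    · rwa [add_assoc, add_comm 1 n] at this
    · rw [Nat.cast_add, Nat.cast_mul, ZMod.natCast_mod (g * h), Nat.cast_mul]
      linear_combination h1 + (g : ZMod l) * h * c2 + (g : ZMod l) * e * hh - (g : ZMod l) * c1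
    · rw [ZMod.natCast_mod, Nat.cast_mul]
      exact h2.mul hU
    · rw [Nat.testBit_or, h3, Nat.one_shiftLeft, Nat.testBit_two_pow]
      simp only [Bool.false_or, decide_eq_false_iff_not]
      intro e1
      have e2 : (g : ZMod l) + d = y := by
        rw [← e1, ZMod.natCast_mod, Nat.cast_add]
      have e3 : (g : ZMod l) * u T = g * (1 : ℕ) := by
        push_cast
        linear_combination h1 - e2
      have e4 := (ZMod.natCast_eq_natCast_iff' _ _ _).1 (h2.mul_left_cancel e3)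
      rw [Nat.mod_eq_of_lt hl] at e4
      exact hu T e4

theorem chkE_sound {u c : ℕ → ℕ} (hrec : ∀ n, 2 * u (n + 1) + 2 * c n = 5 * u n) {l h : ℕ}
    (hl : 1 < l) (hh : (5 : ZMod l) * h = 2) (hU : IsUnit (h : ZMod l)) (hu : ∀ n, u n % l ≠ 1)
    {G : ℕ → ℕ} {r b T : ℕ} (hc : chkE l h G r b = true) (hM : Match c T (ln r b) (wd r b)) :
    1 ≤ ln r b ∧ u (T + ln r b) % l = (ca r b * (u T % l) + cc r b) % l ∧
    rk (rk0 (G (tg r b))) (u (T + ln r b) % l) + 1 ≤
      rk (rk0 r) (u T % l) + bt (em r b) (u T % l) := by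
  have hy : u T % l < l := Nat.mod_lt _ (by omega)
  simp only [chkE, force_eq] at hc
  obtain ⟨g, d, m, h1, h2, h3⟩ := eloop_sound hrec hl hh hU hu _ (u T % l) _ T _ 1 0 0 hM
    (by simp) (by simp) (by simp) hc
  simp only [band_iff] at h1
  obtain ⟨a1, a2, a3, a4⟩ := h1
  have b1 : ca r b * g % l = 1 := Nat.eq_of_beq_eq_true a1
  have b2 : (ca r b * d + cc r b) % l = 0 := Nat.eq_of_beq_eq_true a2
  have c1 : (ca r b : ZMod l) * g = 1 := by
    rw [← Nat.cast_mul, ← ZMod.natCast_mod, b1, Nat.cast_one]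
  have c2 : (ca r b : ZMod l) * d + cc r b = 0 := by
    rw [← Nat.cast_mul, ← Nat.cast_add, ← ZMod.natCast_mod, b2, Nat.cast_zero]
  have e : u (T + ln r b) % l = (ca r b * (u T % l) + cc r b) % l := by
    rw [← ZMod.natCast_eq_natCast_iff', Nat.cast_add, Nat.cast_mul]
    linear_combination (ca r b : ZMod l) * h2 - (u (T + ln r b) : ZMod l) * c1 - c2
  refine ⟨Nat.le_of_ble_eq_true a3, e, ?_⟩
  obtain ⟨_, h4⟩ := sloop_sound _ _ _ _ a4 (u T % l) (by
    show (m ^^^ (2 ^ l - 1)).testBit (u T % l) = true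
    rw [Nat.testBit_xor, h3, Nat.testBit_two_pow_sub_one]
    simpa using hy)
  rw [e]
  exact Nat.le_of_ble_eq_true h4

theorem bt_le (m y : ℕ) : bt m y ≤ 1 := Nat.and_le_right

theorem bt_test {m y : ℕ} (h : bt m y = 1) : m.testBit y = true := by
  have h' : m >>> y &&& 1 = 1 := h
  rw [Nat.testBit, Nat.and_comm, h']
  rfl

theorem chkA_sound {l h : ℕ} {G G' : ℕ → ℕ} {N' v : ℕ} (hc : chkA l h G G' N' v = true) :
    (∀ b, b ≤ 1 → chkE l h G (G v) b = true) ∧ ∀ y, bt (em (G v) 0) y = 1 →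
      bt (em (G v) 1) y = 1 → ∃ j, j < N' ∧ sr (G' j) = v * 32 + y := by
  simp only [chkA, force_eq, band_iff] at hc
  obtain ⟨h1, h2, h3⟩ := hc
  refine ⟨fun b hb => ?_, fun y a1 a2 => ?_⟩
  · interval_cases b
    · exact h1
    · exact h2
  · obtain ⟨j, hj⟩ := sloop_sound _ _ _ _ h3 y (by
      show (em (G v) 0 &&& em (G v) 1).testBit y = true
      rw [Nat.testBit_and, bt_test a1, bt_test a2]
      rfl)
    rw [band_iff] at hj
    exact ⟨j, Nat.le_of_ble_eq_true hj.1, Nat.eq_of_beq_eq_true hj.2⟩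

/-- `P` is closed under rank keeping edges. -/
def Closed (l : ℕ) (G : ℕ → ℕ) (u c : ℕ → ℕ) (P : ℕ → ℕ → Prop) : Prop :=
  ∀ T v, P T v → ∃ b, b ≤ 1 ∧ Match c T (ln (G v) b) (wd (G v) b) ∧
    P (T + ln (G v) b) (tg (G v) b) ∧ bt (em (G v) b) (u T % l) = 1 ∧ 1 ≤ ln (G v) b ∧
    u (T + ln (G v) b) % l = (ca (G v) b * (u T % l) + cc (G v) b) % l

theorem bstep_sound {l : ℕ} {u c : ℕ → ℕ} {P : ℕ → ℕ → Prop} {s : ℕ}
    {k : ℕ → ℕ → ℕ → ℕ → Bool}
    (hk : ∀ T v L w, P T v → k v (u T % l) L w = true →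
      Match c T L w ∧ ∃ v', P (T + L) v' ∧ s = v' * 32 + u (T + L) % l)
    {r b T L w : ℕ} (h1 : Match c T (ln r b) (wd r b)) (h2 : P (T + ln r b) (tg r b))
    (h3 : u (T + ln r b) % l = (ca r b * (u T % l) + cc r b) % l)
    (h : bstep l k r b (u T % l) L w = true) :
    Match c T L w ∧ ∃ v', P (T + L) v' ∧ s = v' * 32 + u (T + L) % l := by
  simp only [bstep, force_eq, band_iff] at h
  obtain ⟨a1, a2, a3⟩ := h
  have b1 : ln r b ≤ L := Nat.le_of_ble_eq_true a1
  have b2 : w % 4 ^ ln r b = wd r b % 4 ^ ln r b := Nat.eq_of_beq_eq_true a2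
  have b3 : k (tg r b) ((ca r b * (u T % l) + cc r b) % l) (L - ln r b) (w / 4 ^ ln r b) = true := a3
  rw [← h3] at b3
  obtain ⟨d1, d2⟩ := hk _ _ _ _ h2 b3
  have e : T + ln r b + (L - ln r b) = T + L := by omega
  rw [e] at d2
  exact ⟨h1.append b1 b2 d1, d2⟩

theorem bloop_sound {l : ℕ} {G u c : ℕ → ℕ} {P : ℕ → ℕ → Prop} (hP : Closed l G u c P) (s n : ℕ) :
    ∀ T v L w, P T v → bloop l G s n v (u T % l) L w = true →
      Match c T L w ∧ ∃ v', P (T + L) v' ∧ s = v' * 32 + u (T + L) % l := by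
  induction n with
  | zero => intro T v L w _ h; exact absurd h (by simp [bloop])
  | succ n ih =>
    intro T v L w hv h
    have h' : (Bool.rec (motive := fun _ => Bool)
      (band (Nat.ble (bt (em (G v) 0) (u T % l) + bt (em (G v) 1) (u T % l)) 1)
        (bstep l (bloop l G s n) (G v) (bt (em (G v) 1) (u T % l)) (u T % l) L w))
      (Nat.beq s (v * 32 + u T % l)) (Nat.beq L 0)) = true := h
    cases hL : Nat.beq L 0
    · rw [hL] at h'
      obtain ⟨a1, a2⟩ := (band_iff _ _).1 h'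
      have a1' := Nat.le_of_ble_eq_true a1
      obtain ⟨b, hb, m1, m2, m3, -, m5⟩ := hP T v hv
      have e : bt (em (G v) 1) (u T % l) = b := by
        interval_cases b
        · omega
        · exact m3
      rw [e] at a2
      exact bstep_sound ih m1 m2 m5 a2
    · rw [hL] at h'
      rw [Nat.eq_of_beq_eq_true hL]
      exact ⟨fun i hi => absurd hi (by omega), v, hv, Nat.eq_of_beq_eq_true h'⟩

theorem chkB_sound {l : ℕ} {G G' u c : ℕ → ℕ} {P : ℕ → ℕ → Prop} (hP : Closed l G u c P)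
    (hl : 0 < l) (hl' : l ≤ 32) {N' j T v : ℕ} (hc : chkB l G G' N' j = true) (hv : P T v)
    (hs : sr (G' j) = v * 32 + u T % l) :
    ∃ b, b ≤ 1 ∧ Match c T (ln (G' j) b) (wd (G' j) b) ∧ tg (G' j) b < N' ∧
      ∃ v', P (T + ln (G' j) b) v' ∧ sr (G' (tg (G' j) b)) = v' * 32 + u (T + ln (G' j) b) % l := by
  have hy : u T % l < l := Nat.mod_lt _ hl
  have hc' : band (chkF l G G' N' (G' j) (G (sr (G' j) / 32)) (sr (G' j) % 32) 0)
    (chkF l G G' N' (G' j) (G (sr (G' j) / 32)) (sr (G' j) % 32) 1) = true := hc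
  have e1 : sr (G' j) / 32 = v := by omega
  have e2 : sr (G' j) % 32 = u T % l := by omega
  rw [e1, e2, band_iff] at hc'
  obtain ⟨b, hb, m1, m2, -, -, m5⟩ := hP T v hv
  have hF : chkF l G G' N' (G' j) (G v) (u T % l) b = true := by
    interval_cases b
    · exact hc'.1
    · exact hc'.2
  simp only [chkF, force_eq, band_iff] at hF
  obtain ⟨d1, d2⟩ := bstep_sound (bloop_sound hP _ _) m1 m2 m5 hF.2
  exact ⟨b, hb, d1, Nat.le_of_ble_eq_true hF.1, d2⟩

end Pool.Agent.MP_c6582e_nt.H83
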